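import Pool.Agent.Helper95.QL.SH
import Pool.Agent.Helper56.QL.Cp
import Pool.Agent.Helper56.QL.Gr
import Pool.Agent.Helper8.QL.Nz

/-! # Project QL: growth and real part of the two-sided function -/

set_option autoImplicit false

namespace Pool.Agent.Helper95.QL

open MeasureTheory Set Filter Topology
open Pool.Agent.Helper18.ES (lam bb)
open Pool.Agent.Helper99.MS (ell ff GB EE al cv alC cv_comm cv_cont alC_KD ff_meas EE_le_one EE_pos)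

variable {B : ℝ}

theorem Hh_bd : ∃ C : ℝ, 1 ≤ C ∧ ∀ B : ℝ, GB (ff lam) B → ∀ k : ℕ, 2 ≤ k → ∀ u v : ℝ, 0 ≤ u →
    ‖Hh (4 * k : ℕ) (v + u)‖ ≤ C * (B + 1) * ((4 * k : ℕ) : ℝ) ^ 6 * ell u * pw v :=
  Pool.Agent.Helper56.QL.Hh_bd_of Rm_left Rm_right Pool.Agent.Helper8.QL.al_mass

theorem Hh_re : ∃ C : ℝ, 1 ≤ C ∧ ∀ k : ℕ, 2 ≤ k → ∀ v : ℝ, |v| ≤ 3/4 ∨ √((4 * k : ℕ) : ℝ) ≤ v →
    |(Hh (4 * k : ℕ) v).re - g1l (4 * k : ℕ) v| ≤ C * ((4 * k : ℕ) : ℝ) ^ (-(3/16) : ℝ) :=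
  Pool.Agent.Helper56.QL.Hh_re_of Pool.Agent.Helper8.QL.Rm_near Rm_right Pool.Agent.Helper8.QL.al_mass

theorem g1l_cv (m : ℕ) (v : ℝ) : cv (ff lam) (alC m) v = (g1l m v : ℂ) := by
  rw [cv_comm]
  unfold g1l alC
  rw [← integral_complex_ofReal]
  congr 1
  ext t
  push_cast
  rfl

theorem g1l_cont (h : GB (ff lam) B) {m : ℕ} (hm : 4 ≤ m) : Continuous (g1l m) := by
  have h1 := cv_cont (ff_meas lam) h (alC_KD hm)
  have h2 := Complex.continuous_re.comp h1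
  refine h2.congr ?_
  intro v
  simp only [Function.comp_apply]
  rw [g1l_cv, Complex.ofReal_re]

theorem Hh_cont0 (h : GB (ff lam) B) {k : ℕ} (hk : 2 ≤ k) : Continuous (Hh (4 * k : ℕ)) := by
  have hm8 : (8:ℝ) ≤ ((4 * k : ℕ) : ℝ) := by
    have : 8 ≤ 4 * k := by omega
    exact_mod_cast this
  unfold Hh
  apply Complex.continuous_ofReal.comp
  exact ((g1l_cont h (by omega)).sub (Rm_cont hm8)).sub continuous_const

theorem ell_zero : ell 0 = 1 := by simp [ell]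

/-- the hypotheses on one scale -/
structure Sc (k : ℕ) (CH q : ℝ) : Prop where
  CH0 : 0 ≤ CH
  q0 : 0 ≤ q
  bd : ∀ u v : ℝ, 0 ≤ u → ‖Hh (4 * k : ℕ) (v + u)‖ ≤ CH * ell u * pw v
  re : ∀ v : ℝ, |v| ≤ 3/4 ∨ √((4 * k : ℕ) : ℝ) ≤ v → |(Hh (4 * k : ℕ) v).re - g1l (4 * k : ℕ) v| ≤ q

theorem Sc_of : ∃ C : ℝ, 1 ≤ C ∧ ∀ B : ℝ, GB (ff lam) B → ∀ k : ℕ, 2 ≤ k →
    Sc k (C * (B + 1) * ((4 * k : ℕ) : ℝ) ^ 6) (C * ((4 * k : ℕ) : ℝ) ^ (-(3/16) : ℝ)) := by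
  obtain ⟨C1, h1, hb⟩ := Hh_bd
  obtain ⟨C2, h2, hr⟩ := Hh_re
  refine ⟨max C1 C2, h1.trans (le_max_left _ _), fun B hB k hk => ?_⟩
  have hB0 := hB.nonneg
  have hC0 : 0 ≤ max C1 C2 := (zero_le_one.trans h1).trans (le_max_left _ _)
  refine ⟨by positivity, by positivity, fun u v hu => ?_, fun v hv => ?_⟩
  · refine (hb B hB k hk u v hu).trans ?_
    have e1 := Pool.Agent.Helper99.MS.ell_nonneg u
    have e2 := (Pool.Agent.Helper47.QL.pw_pos v).le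
    have e3 := le_max_left C1 C2
    gcongr
  · refine (hr k hk v hv).trans ?_
    have e3 := le_max_right C1 C2
    gcongr


end Pool.Agent.Helper95.QL
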