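import Pool.Agent.Helper95.IT.Lap
import Pool.Agent.Helper95.IT.Stmts
import Pool.Agent.Helper99.MS.Est2
import Pool.Agent.Helper19.EQ.Defs

/-! # Project QL (edge weights, quantitative, Liouville function): definitions -/

set_option autoImplicit false

namespace Pool.Agent.Helper95.QL

open MeasureTheory Set Filter Topology
open Pool.Agent.Helper18.ES (lam bb)
open Pool.Agent.Helper13.Mob (fej)
open Pool.Agent.Helper95.IT (rho)
open Pool.Agent.Helper99.MS (ff al ZL)

/-- the polynomial weight -/
noncomputable def pw (v : ℝ) : ℝ := (1 + |v|) ^ 8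

/-- the mass of the eighth power of the Fejer kernel -/
noncomputable def c8 : ℝ := ∫ v : ℝ, fej v ^ 8

/-- the kernel at scale `L`, total mass `2π`, spectrum in `[-L, L]` -/
noncomputable def KJ (L v : ℝ) : ℝ := 2 * Real.pi / c8 * (L / 8) * fej (L / 8 * v) ^ 8

/-- the bump average of the normalised Liouville sum -/
noncomputable def g1l (m v : ℝ) : ℝ := ∫ t : ℝ, ff lam (v - t) * al m t

/-- the bump average of the remainder -/
noncomputable def Rm (m v : ℝ) : ℝ := ∫ t : ℝ, rho (v - t) * al m t

/-- the two-sided function -/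
noncomputable def Hh (m v : ℝ) : ℂ := ((g1l m v - Rm m v - bb * ∫ t : ℝ, al m t : ℝ) : ℂ)

/-- the spectrum -/
noncomputable def ZM (L : ℝ) : Finset ℝ := insert 0 (ZL L)

end Pool.Agent.Helper95.QL
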