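import Pool.Agent.Helper95.QL.RZ
import Pool.Agent.Helper99.MS.Tr
import Pool.Agent.Helper51.IT.GA
import Pool.Agent.Helper11.IT.FE
import Pool.Agent.H62.Gam
import Pool.Agent.Helper53.OM.Stir

/-! # Project QL, block LB: the transform on the lines `Re w = c`, `1/8 ≤ c < 1/2` -/

set_option autoImplicit false

namespace Pool.Agent.Helper95.QL

open MeasureTheory Set Filter Topology
open Pool.Agent.Helper18.ES (lam)
open Pool.Agent.Helper95.IT (pt)
open Pool.Agent.Helper11.IT (pt_re pt_im norm_cos_le_exp norm_two_pi)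
open Pool.Agent.Helper99.MS (ff GB khat)

variable {B : ℝ}

theorem fact_khat {m : ℕ} (hm : 8 ≤ m) {c : ℝ} (hc : 1/8 ≤ c) (hc2 : c ≤ 1/2) :
    Real.exp m * (1 / (m : ℝ)) ^ ((m : ℝ) - c) * Real.Gamma (m - c) ≤ 2 * Real.exp 1 := by
  have hm8 : (8:ℝ) ≤ m := by exact_mod_cast hm
  have hm0 : (0:ℝ) < m := by linarith
  have h1 : Real.Gamma (m - c) ≤ Real.Gamma m ^ (1 - c) * Real.Gamma (m - 1) ^ c := by
    have h := Real.Gamma_mul_add_mul_le_rpow_Gamma_mul_rpow_Gamma (s := (m : ℝ)) (t := (m : ℝ) - 1) (a := 1 - c)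
      (b := c) hm0 (by linarith) (by linarith) (by linarith) (by ring)
    rwa [show (1 - c) * (m : ℝ) + c * ((m : ℝ) - 1) = m - c by ring] at h
  have h2 : Real.Gamma m = (m - 1) * Real.Gamma (m - 1) := by
    have h := Real.Gamma_add_one (s := (m : ℝ) - 1) (by linarith)
    rwa [show (m : ℝ) - 1 + 1 = m by ring] at h
  have hg0 : 0 < Real.Gamma m := Real.Gamma_pos_of_pos hm0
  have h3 : Real.Gamma (m - 1) = Real.Gamma m / (m - 1) := by
    rw [h2]
    field_simp [show (m : ℝ) - 1 ≠ 0 by linarith]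
  have h4 : Real.Gamma (m - c) ≤ Real.Gamma m * ((m : ℝ) - 1) ^ (-c) := by
    refine h1.trans (le_of_eq ?_)
    rw [h3, Real.div_rpow hg0.le (by linarith), ← mul_div_assoc, ← Real.rpow_add hg0, show 1 - c + c = 1 by ring,
      Real.rpow_one, Real.rpow_neg (by linarith), div_eq_mul_inv]
  have h5 : Real.Gamma m ≤ Real.exp 1 * ((m : ℝ) / Real.exp 1) ^ m := by
    have h6 := Pool.Agent.Helper53.OM.fact_le m (by omega)
    have h7 : Real.Gamma ((m : ℝ) + 1) = m.factorial := Real.Gamma_nat_eq_factorial m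
    rw [Real.Gamma_add_one hm0.ne'] at h7
    rw [← h7] at h6
    have h8 : √(m : ℝ) ≤ m := by
      rw [Real.sqrt_le_left hm0.le]
      nlinarith
    have h9 : Real.exp 1 * √(m : ℝ) * ((m : ℝ) / Real.exp 1) ^ m ≤ (m : ℝ) * (Real.exp 1 * ((m : ℝ) / Real.exp 1) ^ m) := by
      calc Real.exp 1 * √(m : ℝ) * ((m : ℝ) / Real.exp 1) ^ m
          ≤ Real.exp 1 * (m : ℝ) * ((m : ℝ) / Real.exp 1) ^ m := by gcongr
        _ = _ := by ring
    exact le_of_mul_le_mul_left (h6.trans h9) hm0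
  have h10 : Real.exp m * (1 / (m : ℝ)) ^ ((m : ℝ) - c) * (Real.exp 1 * ((m : ℝ) / Real.exp 1) ^ m) =
      Real.exp 1 * (m : ℝ) ^ c := by
    rw [one_div, Real.inv_rpow hm0.le, Real.rpow_sub hm0, Real.rpow_natCast, div_pow, ← Real.exp_nat_mul, mul_one]
    have he := Real.exp_pos m
    field_simp
  have h11 : (m : ℝ) ^ c * ((m : ℝ) - 1) ^ (-c) ≤ 2 := by
    rw [Real.rpow_neg (by linarith), ← div_eq_mul_inv, ← Real.div_rpow hm0.le (by linarith)]
    have h12 : (m : ℝ) / (m - 1) ≤ 2 := by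
      rw [div_le_iff₀ (by linarith)]
      linarith
    have h13 : 1 ≤ (m : ℝ) / (m - 1) := by
      rw [le_div_iff₀ (by linarith)]
      linarith
    calc ((m : ℝ) / (m - 1)) ^ c ≤ ((m : ℝ) / (m - 1)) ^ (1:ℝ) := Real.rpow_le_rpow_of_exponent_le h13 (by linarith)
      _ ≤ 2 := by rw [Real.rpow_one]; exact h12
  have hp : 0 ≤ Real.exp m * (1 / (m : ℝ)) ^ ((m : ℝ) - c) := by positivity
  have hq : 0 ≤ ((m : ℝ) - 1) ^ (-c) := Real.rpow_nonneg (by linarith) _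
  calc Real.exp m * (1 / (m : ℝ)) ^ ((m : ℝ) - c) * Real.Gamma (m - c)
      ≤ Real.exp m * (1 / (m : ℝ)) ^ ((m : ℝ) - c) * (Real.Gamma m * ((m : ℝ) - 1) ^ (-c)) :=
        mul_le_mul_of_nonneg_left h4 hp
    _ ≤ Real.exp m * (1 / (m : ℝ)) ^ ((m : ℝ) - c) * ((Real.exp 1 * ((m : ℝ) / Real.exp 1) ^ m) * ((m : ℝ) - 1) ^ (-c)) :=
        mul_le_mul_of_nonneg_left (mul_le_mul_of_nonneg_right h5 hq) hp
    _ = (Real.exp m * (1 / (m : ℝ)) ^ ((m : ℝ) - c) * (Real.exp 1 * ((m : ℝ) / Real.exp 1) ^ m)) * ((m : ℝ) - 1) ^ (-c) := by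
        ring
    _ = Real.exp 1 * ((m : ℝ) ^ c * ((m : ℝ) - 1) ^ (-c)) := by rw [h10]; ring
    _ ≤ Real.exp 1 * 2 := mul_le_mul_of_nonneg_left h11 (Real.exp_pos _).le
    _ = _ := by ring

/-- one step of the recursion -/
theorem gam_step {a y : ℝ} (ha : 1 ≤ a) : ‖Complex.Gamma ((a : ℂ) - Complex.I * y)‖ * (1 + |y|) ≤
    2 * ‖Complex.Gamma (((a + 1 : ℝ) : ℂ) - Complex.I * y)‖ := by
  set s : ℂ := (a : ℂ) - Complex.I * y with hs
  have hre : s.re = a := by simp [hs]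
  have him : s.im = -y := by simp [hs]
  have hs0 : s ≠ 0 := by
    intro h
    rw [h] at hre
    simp at hre
    linarith
  have h1 : (((a + 1 : ℝ) : ℂ) - Complex.I * y) = s + 1 := by
    rw [hs]
    push_cast
    ring
  rw [h1, Complex.Gamma_add_one _ hs0, norm_mul]
  have h2 : |s.re| ≤ ‖s‖ := Complex.abs_re_le_norm s
  have h3 : |s.im| ≤ ‖s‖ := Complex.abs_im_le_norm s
  rw [hre, abs_of_nonneg (by linarith)] at h2
  rw [him, abs_neg] at h3
  have h4 := norm_nonneg (Complex.Gamma s)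
  nlinarith

theorem khat_bd : ∃ C : ℝ, 0 < C ∧ ∀ m : ℕ, 8 ≤ m → ∀ c y : ℝ, 1/8 ≤ c → c ≤ 1/2 →
    ‖khat m (pt c y)‖ ≤ C * (m : ℝ) ^ 6 / (1 + |y|) ^ 6 := by
  refine ⟨2 ^ 6 * 2 ^ 6 * (2 * Real.exp 1), by positivity, fun m hm c y hc hc2 => ?_⟩
  have hm8 : (8:ℝ) ≤ m := by exact_mod_cast hm
  have hm0 : (0:ℝ) < m := by linarith
  have hy := abs_nonneg y
  have hy1 : 0 < 1 + |y| := by positivity
  set G : ℝ → ℝ := fun a => ‖Complex.Gamma ((a : ℂ) - Complex.I * y)‖ with hG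
  have hst : ∀ a : ℝ, 1 ≤ a → G a * (1 + |y|) ≤ 2 * G (a + 1) := fun a ha => gam_step ha
  set a : ℝ := m - c with ha
  have h0 : G a * (1 + |y|) ≤ 2 * G (a + 1) := hst _ (by rw [ha]; linarith)
  have h1 : G (a + 1) * (1 + |y|) ≤ 2 * G (a + 1 + 1) := hst _ (by rw [ha]; linarith)
  have h2 : G (a + 1 + 1) * (1 + |y|) ≤ 2 * G (a + 1 + 1 + 1) := hst _ (by rw [ha]; linarith)
  have h3 : G (a + 1 + 1 + 1) * (1 + |y|) ≤ 2 * G (a + 1 + 1 + 1 + 1) := hst _ (by rw [ha]; linarith)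
  have h4 : G (a + 1 + 1 + 1 + 1) * (1 + |y|) ≤ 2 * G (a + 1 + 1 + 1 + 1 + 1) := hst _ (by rw [ha]; linarith)
  have h5 : G (a + 1 + 1 + 1 + 1 + 1) * (1 + |y|) ≤ 2 * G (a + 1 + 1 + 1 + 1 + 1 + 1) := hst _ (by rw [ha]; linarith)
  have hY : 0 ≤ 1 + |y| := hy1.le
  have e2 : G a * (1 + |y|) ^ 2 ≤ 2 ^ 2 * G (a + 1 + 1) := by nlinarith [mul_le_mul_of_nonneg_right h0 hY]
  have e3 : G a * (1 + |y|) ^ 3 ≤ 2 ^ 3 * G (a + 1 + 1 + 1) := by nlinarith [mul_le_mul_of_nonneg_right e2 hY]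
  have e4 : G a * (1 + |y|) ^ 4 ≤ 2 ^ 4 * G (a + 1 + 1 + 1 + 1) := by nlinarith [mul_le_mul_of_nonneg_right e3 hY]
  have e5 : G a * (1 + |y|) ^ 5 ≤ 2 ^ 5 * G (a + 1 + 1 + 1 + 1 + 1) := by nlinarith [mul_le_mul_of_nonneg_right e4 hY]
  have e6 : G a * (1 + |y|) ^ 6 ≤ 2 ^ 6 * G (a + 1 + 1 + 1 + 1 + 1 + 1) := by nlinarith [mul_le_mul_of_nonneg_right e5 hY]
  have ha1 : 1 ≤ a := by rw [ha]; linarith
  have hgr : ∀ x : ℝ, 0 < x → Real.Gamma (x + 1) = x * Real.Gamma x := fun x hx => Real.Gamma_add_one hx.ne'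
  have h6 : G (a + 1 + 1 + 1 + 1 + 1 + 1) ≤ Real.Gamma (a + 1 + 1 + 1 + 1 + 1 + 1) := by
    have h := Pool.Agent.H62.norm_Gamma_le (s := (((a + 1 + 1 + 1 + 1 + 1 + 1 : ℝ) : ℂ) - Complex.I * y)) (by
      simp
      linarith)
    refine h.trans (le_of_eq ?_)
    congr 1
    simp
  have hga : 0 < Real.Gamma a := Real.Gamma_pos_of_pos (by linarith)
  have h7 : Real.Gamma (a + 1 + 1 + 1 + 1 + 1 + 1) ≤ (2 * m) ^ 6 * Real.Gamma a := by
    rw [hgr _ (by linarith), hgr _ (by linarith), hgr _ (by linarith), hgr _ (by linarith), hgr _ (by linarith),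
      hgr _ (by linarith)]
    have k1 : a + 1 + 1 + 1 + 1 + 1 ≤ 2 * m := by rw [ha]; linarith
    have k2 : a + 1 + 1 + 1 + 1 ≤ 2 * m := by rw [ha]; linarith
    have k3 : a + 1 + 1 + 1 ≤ 2 * m := by rw [ha]; linarith
    have k4 : a + 1 + 1 ≤ 2 * m := by rw [ha]; linarith
    have k5 : a + 1 ≤ 2 * m := by rw [ha]; linarith
    have k6 : a ≤ 2 * m := by rw [ha]; linarith
    calc (a + 1 + 1 + 1 + 1 + 1) * ((a + 1 + 1 + 1 + 1) * ((a + 1 + 1 + 1) * ((a + 1 + 1) * ((a + 1) * (a * Real.Gamma a)))))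
        ≤ (2 * m) * ((2 * m) * ((2 * m) * ((2 * m) * ((2 * m) * ((2 * m) * Real.Gamma a))))) := by gcongr
      _ = _ := by ring
  have h8 := fact_khat hm hc hc2
  have h9 : ‖khat m (pt c y)‖ = Real.exp m * (1 / (m : ℝ)) ^ a * G a := by
    unfold khat
    rw [norm_mul, norm_mul]
    congr 1
    · congr 1
      · rw [Complex.norm_exp]
        simp
      · have e : (1 / (m : ℂ)) = ((1 / (m : ℝ) : ℝ) : ℂ) := by push_cast; ring
        rw [e, Complex.norm_cpow_eq_rpow_re_of_pos (by positivity)]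
        congr 1
        simp [pt, ha]
    · simp only [hG]
      congr 2
      rw [ha]
      unfold pt
      push_cast
      ring
  rw [h9, le_div_iff₀ (by positivity)]
  have hp : 0 ≤ Real.exp m * (1 / (m : ℝ)) ^ a := by positivity
  calc Real.exp m * (1 / (m : ℝ)) ^ a * G a * (1 + |y|) ^ 6
      = Real.exp m * (1 / (m : ℝ)) ^ a * (G a * (1 + |y|) ^ 6) := by ring
    _ ≤ Real.exp m * (1 / (m : ℝ)) ^ a * (2 ^ 6 * ((2 * m) ^ 6 * Real.Gamma a)) := by
        apply mul_le_mul_of_nonneg_left _ hp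
        refine e6.trans ?_
        apply mul_le_mul_of_nonneg_left (h6.trans h7) (by norm_num)
    _ = 2 ^ 6 * 2 ^ 6 * (m : ℝ) ^ 6 * (Real.exp m * (1 / (m : ℝ)) ^ a * Real.Gamma a) := by ring
    _ ≤ 2 ^ 6 * 2 ^ 6 * (m : ℝ) ^ 6 * (2 * Real.exp 1) := mul_le_mul_of_nonneg_left h8 (by positivity)
    _ = _ := by ring

/-- the value of the transform on the line -/
noncomputable def Tq (m : ℕ) (w : ℂ) : ℂ := khat m w * (riemannZeta (2 * w) / riemannZeta w)

theorem A_bd : ∃ C : ℝ, 0 < C ∧ ∀ c v : ℝ, 1/8 ≤ c → c < 1/2 → riemannZeta (pt c v) ≠ 0 →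
    ‖(riemannZeta (pt c v))⁻¹‖ ≤ C * ‖(riemannZeta (1 - pt c v))⁻¹‖ := by
  obtain ⟨C, hC, hG⟩ := Pool.Agent.Helper51.IT.stmtGA
  refine ⟨32 * C, by positivity, fun c v hc hc2 hz => ?_⟩
  have hv := abs_nonneg v
  set s := pt c v with hs
  have hsre : s.re = c := pt_re c v
  have hsim : s.im = v := pt_im c v
  have hc0 : 0 < c := by linarith
  have e2 : riemannZeta (1 - s) = 2 * (2 * (Real.pi : ℂ)) ^ (-s) * Complex.Gamma s * Complex.cos (Real.pi * s / 2) * riemannZeta s := by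
    refine riemannZeta_one_sub (fun n h => ?_) (fun h => ?_)
    · have h2 := congrArg Complex.re h
      simp [hsre] at h2
      have h3 : (0 : ℝ) ≤ n := Nat.cast_nonneg n
      linarith
    · have h2 := congrArg Complex.re h
      simp [hsre] at h2
      linarith
  set A : ℂ := 2 * (2 * (Real.pi : ℂ)) ^ (-s) * Complex.Gamma s * Complex.cos (Real.pi * s / 2) with hA
  have hs0 : s ≠ 0 := by
    intro h
    rw [h] at hsre
    simp at hsre
    linarith
  have b2 : ‖Complex.Gamma s‖ * ‖s‖ ≤ C * (1 + |v|) ^ (1 / 2 + c) * Real.exp (-(Real.pi * |v| / 2)) := by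
    have h1 := hG (1 / 2 + c) v (by linarith) (by linarith)
    have h2 : (1 / 2 : ℂ) + ((1 / 2 + c : ℝ) : ℂ) + Complex.I * (v : ℂ) = s + 1 := by
      rw [hs, pt]
      push_cast
      ring
    rw [h2, Complex.Gamma_add_one s hs0, norm_mul] at h1
    linarith
  have b4 : ‖Complex.cos (Real.pi * s / 2)‖ ≤ Real.exp (Real.pi * |v| / 2) := by
    refine (norm_cos_le_exp _).trans (le_of_eq ?_)
    congr 1
    have h1 : ((Real.pi : ℂ) * s / 2) = ((Real.pi * c / 2 : ℝ) : ℂ) + ((Real.pi * v / 2 : ℝ) : ℂ) * Complex.I := by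
      rw [hs, pt]
      push_cast
      ring
    have h2 : ((Real.pi : ℂ) * s / 2).im = Real.pi * v / 2 := by
      rw [h1]
      simp only [Complex.add_im, Complex.ofReal_im, Complex.mul_im, Complex.ofReal_re, Complex.I_im, Complex.I_re, mul_one,
        mul_zero, add_zero, zero_add]
    rw [h2, abs_div, abs_mul, abs_of_pos Real.pi_pos, abs_of_pos (by norm_num : (0 : ℝ) < 2)]
  have b6 : ‖(2 * (Real.pi : ℂ)) ^ (-s)‖ ≤ 1 := norm_two_pi (by rw [hsre]; exact hc0.le)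
  have b7 : 1/8 * (1 + |v|) ≤ 2 * ‖s‖ := by
    have h1 : |s.re| ≤ ‖s‖ := Complex.abs_re_le_norm s
    have h2 : |s.im| ≤ ‖s‖ := Complex.abs_im_le_norm s
    rw [hsre, abs_of_pos hc0] at h1
    rw [hsim] at h2
    nlinarith
  have c2 : ‖A‖ * ‖s‖ ≤ 2 * C * (1 + |v|) ^ (1 / 2 + c) := by
    rw [hA, norm_mul, norm_mul, norm_mul]
    have h2 : ‖(2 : ℂ)‖ = 2 := by norm_num
    rw [h2]
    have h3 : Real.exp (-(Real.pi * |v| / 2)) * Real.exp (Real.pi * |v| / 2) = 1 := by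
      rw [← Real.exp_add, neg_add_cancel, Real.exp_zero]
    calc 2 * ‖(2 * (Real.pi : ℂ)) ^ (-s)‖ * ‖Complex.Gamma s‖ * ‖Complex.cos (Real.pi * s / 2)‖ * ‖s‖
        = 2 * ‖(2 * (Real.pi : ℂ)) ^ (-s)‖ * (‖Complex.Gamma s‖ * ‖s‖) * ‖Complex.cos (Real.pi * s / 2)‖ := by ring
      _ ≤ 2 * 1 * (C * (1 + |v|) ^ (1 / 2 + c) * Real.exp (-(Real.pi * |v| / 2))) * Real.exp (Real.pi * |v| / 2) := by
          gcongr
      _ = 2 * C * (1 + |v|) ^ (1 / 2 + c) * (Real.exp (-(Real.pi * |v| / 2)) * Real.exp (Real.pi * |v| / 2)) := by ring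
      _ = _ := by rw [h3, mul_one]
  have hv1 : 0 < 1 + |v| := by positivity
  have c3 : ‖A‖ ≤ 32 * C := by
    have h1 : ‖A‖ * (1/8 * (1 + |v|)) ≤ 4 * C * (1 + |v|) := by
      have h3 := mul_le_mul_of_nonneg_left b7 (norm_nonneg A)
      have h4 : (1 + |v|) ^ (1 / 2 + c) ≤ 1 + |v| := by
        calc (1 + |v|) ^ (1 / 2 + c) ≤ (1 + |v|) ^ (1:ℝ) :=
              Real.rpow_le_rpow_of_exponent_le (by linarith) (by linarith)
          _ = _ := Real.rpow_one _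
      nlinarith
    have h2 : ‖A‖ * (1/8) * (1 + |v|) ≤ 4 * C * (1 + |v|) := by linarith
    have := le_of_mul_le_mul_right h2 hv1
    linarith
  have hz1 : riemannZeta (1 - s) ≠ 0 ∨ riemannZeta (1 - s) = 0 := (em _).symm.imp id id |>.elim Or.inl Or.inr
  by_cases hA0 : A = 0
  · exfalso
    rw [hA0, zero_mul] at e2
    have hx := e2
    have h1 : (1:ℝ) / 2 < (1 - s).re := by
      simp only [Complex.sub_re, Complex.one_re, hsre]
      linarith
    have h3 : Complex.Gamma s ≠ 0 := Complex.Gamma_ne_zero_of_re_pos (by rw [hsre]; exact hc0)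
    have h4 : (2 * (Real.pi : ℂ)) ^ (-s) ≠ 0 := by
      rw [Complex.cpow_ne_zero_iff]
      left
      have := Real.pi_ne_zero
      exact mul_ne_zero two_ne_zero (by exact_mod_cast this)
    have h5 : Complex.cos (Real.pi * s / 2) ≠ 0 := by
      intro h
      rw [Complex.cos_eq_zero_iff] at h
      obtain ⟨k, hk⟩ := h
      have hpi : (Real.pi : ℂ) ≠ 0 := by exact_mod_cast Real.pi_ne_zero
      have h4 : s = 2 * (k : ℂ) + 1 := by
        have h5 : (Real.pi : ℂ) * s = (Real.pi : ℂ) * (2 * (k : ℂ) + 1) := by linear_combination 2 * hk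
        exact mul_left_cancel₀ hpi h5
      have h6 := congrArg Complex.re h4
      rw [hsre] at h6
      simp at h6
      have h7 : (0 : ℝ) < 2 * (k : ℝ) + 1 := by linarith
      have h8 : (2 * (k : ℝ) + 1) < 1 := by linarith
      have h9 : (0 : ℤ) < 2 * k + 1 := by exact_mod_cast h7
      have h10 : (2 * k + 1 : ℤ) < 1 := by exact_mod_cast h8
      omega
    exact (mul_ne_zero (mul_ne_zero (mul_ne_zero two_ne_zero h4) h3) h5) hA0
  · have e3 : (riemannZeta s)⁻¹ = A * (riemannZeta (1 - s))⁻¹ := by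
      rw [e2, mul_inv, ← mul_assoc, mul_inv_cancel₀ hA0, one_mul]
    rw [e3, norm_mul]
    exact mul_le_mul_of_nonneg_right c3 (norm_nonneg _)

theorem line_bd : ∃ C : ℝ, 1 ≤ C ∧ ∀ B : ℝ, GB (ff lam) B → ∀ m : ℕ, 8 ≤ m → ∀ c y : ℝ, 1/8 ≤ c → c < 1/2 →
    ‖Tq m (pt c y)‖ ≤ C * B * (m : ℝ) ^ 6 / ((1/2 - c) ^ 4 * (1 + |y|) ^ 2) := by
  obtain ⟨C1, hC1, h1⟩ := khat_bd
  obtain ⟨C2, hC2, h2⟩ := A_bd
  obtain ⟨C3, hC3, h3⟩ := rz_inv
  refine ⟨max 1 (C1 * (10 * C2 * C3)), le_max_left _ _, fun B hB m hm c y hc hc2 => ?_⟩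
  have hB0 := hB.nonneg
  have hy := abs_nonneg y
  have hy1 : 0 < 1 + |y| := by positivity
  have hd : 0 < 1/2 - c := by linarith
  have hd1 : 1/2 - c ≤ 1 := by linarith
  have hre : (pt c y).re = c := pt_re c y
  have him : (pt c y).im = y := pt_im c y
  have hz := rz_left hB (w := pt c y) (by rw [hre]; exact hc2) (by rw [hre]; linarith)
  have a1 := h1 m hm c y hc hc2.le
  have a2 := h2 c y hc hc2 hz
  have hre1 : (1 - pt c y).re = 1 - c := by rw [Complex.sub_re, Complex.one_re, hre]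
  have hne1 : 1 - pt c y ≠ 1 := by
    intro h
    have := congrArg Complex.re h
    rw [hre1, Complex.one_re] at this
    linarith
  have a3 := h3 B hB (1 - pt c y) (by rw [hre1]; linarith) (by rw [hre1]; linarith) hne1
  rw [hre1] at a3
  have a4 : ‖1 - pt c y‖ ≤ 1 + |y| := by
    refine (Complex.norm_le_abs_re_add_abs_im _).trans ?_
    rw [hre1, Complex.sub_im, Complex.one_im, him, zero_sub, abs_neg, abs_of_nonneg (by linarith)]
    linarith
  have e1 : (1 - c - 1/2 : ℝ) = 1/2 - c := by ring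
  rw [e1] at a3
  have a5 : ‖(riemannZeta (1 - pt c y))⁻¹‖ ≤ C3 * B * (1 + |y|) / (1/2 - c) ^ 3 := by
    refine a3.trans ?_
    rw [zpow_neg, ← div_eq_mul_inv]
    have : ((1/2 - c) ^ (3:ℤ) : ℝ) = (1/2 - c) ^ 3 := by norm_cast
    rw [this]
    apply div_le_div_of_nonneg_right _ (by positivity)
    exact mul_le_mul_of_nonneg_left a4 (by positivity)
  have hre2 : (2 * pt c y).re = 2 * c := by simp [hre]
  have hne2 : 2 * pt c y ≠ 1 := by
    intro h
    have := congrArg Complex.re h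
    rw [hre2, Complex.one_re] at this
    linarith
  have a6 := Pool.Agent.Helper57.LH.norm_Zt_le (s := 2 * pt c y) (by rw [hre2]; linarith)
  rw [Pool.Agent.Helper57.LH.Zt_eq (by rw [hre2]; linarith) hne2, norm_mul] at a6
  have a7 : ‖2 * pt c y‖ ≤ 1 + 2 * |y| := by
    refine (Complex.norm_le_abs_re_add_abs_im _).trans ?_
    rw [hre2, abs_of_nonneg (by linarith)]
    have : (2 * pt c y).im = 2 * y := by simp [him]
    rw [this, abs_mul, abs_two]
    linarith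
  have a8 : 2 * (1/2 - c) ≤ ‖2 * pt c y - 1‖ := by
    have h := Complex.abs_re_le_norm (2 * pt c y - 1)
    rw [Complex.sub_re, hre2, Complex.one_re, abs_of_nonpos (by linarith)] at h
    linarith
  have a9 : ‖riemannZeta (2 * pt c y)‖ ≤ 10 * (1 + |y|) ^ 2 / (1/2 - c) := by
    rw [le_div_iff₀ hd]
    have b1 : 5 * (1 + ‖2 * pt c y‖) ^ 2 ≤ 20 * (1 + |y|) ^ 2 := by
      have b0 := norm_nonneg (2 * pt c y)
      nlinarith
    have b2 := norm_nonneg (riemannZeta (2 * pt c y))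
    nlinarith
  unfold Tq
  rw [norm_mul, div_eq_mul_inv (riemannZeta _), norm_mul]
  have hm6 : 0 ≤ (m : ℝ) ^ 6 := by positivity
  calc ‖khat m (pt c y)‖ * (‖riemannZeta (2 * pt c y)‖ * ‖(riemannZeta (pt c y))⁻¹‖)
      ≤ (C1 * (m : ℝ) ^ 6 / (1 + |y|) ^ 6) * ((10 * (1 + |y|) ^ 2 / (1/2 - c)) *
        (C2 * (C3 * B * (1 + |y|) / (1/2 - c) ^ 3))) := by
        apply mul_le_mul a1 _ (by positivity) (by positivity)
        apply mul_le_mul a9 _ (norm_nonneg _) (by positivity)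
        exact a2.trans (mul_le_mul_of_nonneg_left a5 hC2.le)
    _ = (C1 * (10 * C2 * C3)) * B * (m : ℝ) ^ 6 / ((1/2 - c) ^ 4 * (1 + |y|) ^ 3) := by
        field_simp
    _ ≤ (max 1 (C1 * (10 * C2 * C3))) * B * (m : ℝ) ^ 6 / ((1/2 - c) ^ 4 * (1 + |y|) ^ 2) := by
        apply div_le_div₀ (by positivity) _ (by positivity) _
        · apply mul_le_mul_of_nonneg_right _ hm6
          exact mul_le_mul_of_nonneg_right (le_max_right _ _) hB0
        · apply mul_le_mul_of_nonneg_left _ (by positivity)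
          exact pow_le_pow_right₀ (by linarith) (by norm_num)

end Pool.Agent.Helper95.QL
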