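import Mathlib

/-! # Project QL: the value at the origin of an exponential polynomial -/

set_option autoImplicit false

namespace Pool.Agent.Helper95.QL

open MeasureTheory Set Finset

/-- the kernel -/
noncomputable def kA (η g h : ℝ) : ℂ := η / (η - Complex.I * (g - h : ℝ))

/-- the form -/
noncomputable def HA (η : ℝ) (G : Finset ℝ) (b : ℝ → ℂ) : ℂ :=
  ∑ g ∈ G, ∑ h ∈ G, b g * (starRingEnd ℂ) (b h) * kA η g h

theorem den_ne {η : ℝ} (h : 0 < η) (x : ℝ) : (η : ℂ) - Complex.I * (x : ℝ) ≠ 0 := by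
  intro h0
  have := congrArg Complex.re h0
  simp at this
  linarith

/-- the first factor -/
noncomputable def eA (η x : ℝ) : ℂ := η / (η - Complex.I * (x : ℝ))
noncomputable def fA (η x : ℝ) : ℂ := -(Complex.I * (x : ℝ)) / (η - Complex.I * (x : ℝ))

theorem eA_add {η : ℝ} (h : 0 < η) (x : ℝ) : eA η x + fA η x = 1 := by
  have := den_ne h x
  unfold eA fA
  rw [← add_div, div_eq_one_iff_eq this]
  ring

theorem key_id {η : ℝ} (h : 0 < η) (x y : ℝ) : (η : ℂ) / (η - Complex.I * (x - y : ℝ)) =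
    eA η x * (starRingEnd ℂ) (eA η y) + fA η x * (starRingEnd ℂ) (fA η y) * (η / (η - Complex.I * (x - y : ℝ))) := by
  have h1 := den_ne h x
  have h2 := den_ne h (x - y)
  have h3 : (η : ℂ) + Complex.I * (y : ℝ) ≠ 0 := by
    have := den_ne h (-y)
    push_cast at this
    intro h0
    apply this
    rw [← h0]
    ring
  have e1 : (starRingEnd ℂ) (eA η y) = η / (η + Complex.I * (y : ℝ)) := by
    unfold eA
    rw [map_div₀, map_sub, map_mul, Complex.conj_ofReal, Complex.conj_I, Complex.conj_ofReal]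
    ring
  have e2 : (starRingEnd ℂ) (fA η y) = (Complex.I * (y : ℝ)) / (η + Complex.I * (y : ℝ)) := by
    unfold fA
    rw [map_div₀, map_neg, map_sub, map_mul, Complex.conj_ofReal, Complex.conj_I, Complex.conj_ofReal]
    ring
  rw [e1, e2]
  unfold eA fA
  push_cast at h2 ⊢
  field_simp
  ring

theorem HA_insert {η : ℝ} (h : 0 < η) (γ : ℝ) (G : Finset ℝ) (hγ : γ ∉ G) (b : ℝ → ℂ) :
    HA η (insert γ G) b = (∑ g ∈ insert γ G, b g * eA η (g - γ)) * (starRingEnd ℂ) (∑ g ∈ insert γ G, b g * eA η (g - γ)) +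
      HA η G (fun g => b g * fA η (g - γ)) := by
  have hb0 : ∀ g, g = γ → b g * fA η (g - γ) = 0 := by
    intro g hg
    rw [hg]
    unfold fA
    simp
  have e1 : HA η G (fun g => b g * fA η (g - γ)) = HA η (insert γ G) (fun g => b g * fA η (g - γ)) := by
    unfold HA
    rw [Finset.sum_insert hγ]
    simp only [hb0 γ rfl, zero_mul, Finset.sum_const_zero, zero_add]
    apply Finset.sum_congr rfl
    intro g _
    rw [Finset.sum_insert hγ, hb0 γ rfl]
    simp
  rw [e1, map_sum, Finset.sum_mul_sum]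
  unfold HA
  rw [← Finset.sum_add_distrib]
  apply Finset.sum_congr rfl
  intro g _
  rw [← Finset.sum_add_distrib]
  apply Finset.sum_congr rfl
  intro k _
  have h1 := key_id h (g - γ) (k - γ)
  rw [show g - γ - (k - γ) = g - k by ring] at h1
  rw [map_mul, map_mul]
  unfold kA
  conv_lhs => rw [h1]
  ring

theorem HA_re {η : ℝ} (h : 0 < η) (G : Finset ℝ) : ∀ b : ℝ → ℂ, ‖∑ g ∈ G, b g‖ ^ 2 ≤ G.card * (HA η G b).re := by
  induction G using Finset.induction_on with
  | empty =>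
    intro b
    simp [HA]
  | insert γ G hγ ih =>
    intro b
    set c : ℂ := ∑ g ∈ insert γ G, b g * eA η (g - γ) with hc
    set b' : ℝ → ℂ := fun g => b g * fA η (g - γ) with hb'
    have h1 := ih b'
    have e1 : HA η (insert γ G) b = c * (starRingEnd ℂ) c + HA η G b' := HA_insert h γ G hγ b
    have e2 : ∑ g ∈ insert γ G, b g = c + ∑ g ∈ G, b' g := by
      have e3 : ∑ g ∈ G, b' g = ∑ g ∈ insert γ G, b' g := by
        rw [Finset.sum_insert hγ]
        have : b' γ = 0 := by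
          simp only [hb']
          unfold fA
          simp
        rw [this, zero_add]
      rw [e3, hc, ← Finset.sum_add_distrib]
      apply Finset.sum_congr rfl
      intro g _
      simp only [hb']
      rw [← mul_add, eA_add h, mul_one]
    set s : ℂ := ∑ g ∈ G, b' g with hs
    rw [e2, e1, Finset.card_insert_of_notMem hγ, Complex.add_re, Complex.mul_conj, Complex.ofReal_re, Complex.normSq_eq_norm_sq]
    push_cast
    set n : ℝ := (G.card : ℝ) with hn
    have hn0 : 0 ≤ n := Nat.cast_nonneg _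
    have h2 : ‖c + s‖ ≤ ‖c‖ + ‖s‖ := norm_add_le _ _
    have h3 : ‖c + s‖ ^ 2 ≤ (‖c‖ + ‖s‖) ^ 2 := pow_le_pow_left₀ (norm_nonneg _) h2 2
    rcases Nat.eq_zero_or_pos G.card with h0 | h0
    · have hG : G = ∅ := Finset.card_eq_zero.1 h0
      have hs0 : s = 0 := by rw [hs, hG]; simp
      have hH0 : HA η G b' = 0 := by rw [hG]; simp [HA]
      rw [hs0, hH0, add_zero, hn, h0]
      simp
    · have hn1 : 1 ≤ n := by
        rw [hn]
        exact_mod_cast h0
      have hcs := norm_nonneg c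
      have hss := norm_nonneg s
      have h4 : n * (‖c‖ + ‖s‖) ^ 2 ≤ (n + 1) * (n * ‖c‖ ^ 2 + ‖s‖ ^ 2) := by
        nlinarith [sq_nonneg (n * ‖c‖ - ‖s‖)]
      have h5 : (n + 1) * (n * ‖c‖ ^ 2 + ‖s‖ ^ 2) ≤ (n + 1) * (n * ‖c‖ ^ 2 + n * (HA η G b').re) := by
        apply mul_le_mul_of_nonneg_left _ (by linarith)
        linarith
      have h6 : n * ‖c + s‖ ^ 2 ≤ n * ((n + 1) * (‖c‖ ^ 2 + (HA η G b').re)) := by
        calc n * ‖c + s‖ ^ 2 ≤ n * (‖c‖ + ‖s‖) ^ 2 := mul_le_mul_of_nonneg_left h3 hn0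
          _ ≤ _ := h4.trans h5
          _ = _ := by ring
      exact le_of_mul_le_mul_left h6 (by linarith)

theorem exp_term {η : ℝ} (h : 0 < η) (x : ℝ) :
    IntegrableOn (fun u : ℝ => Complex.exp (-((η : ℂ) - Complex.I * (x : ℝ)) * u)) (Ioi 0) ∧
      ∫ u in Ioi (0:ℝ), Complex.exp (-((η : ℂ) - Complex.I * (x : ℝ)) * u) = 1 / (η - Complex.I * (x : ℝ)) := by
  have hre : (-((η : ℂ) - Complex.I * (x : ℝ))).re < 0 := by
    simp
    exact h
  refine ⟨integrableOn_exp_mul_complex_Ioi hre 0, ?_⟩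
  rw [integral_exp_mul_complex_Ioi hre 0]
  have := den_ne h x
  simp only [Complex.ofReal_zero, mul_zero, Complex.exp_zero]
  rw [neg_div_neg_eq]

theorem HA_int {η : ℝ} (h : 0 < η) (G : Finset ℝ) (b : ℝ → ℂ) :
    (HA η G b).re = η * ∫ u in Ioi (0:ℝ), ‖∑ g ∈ G, b g * Complex.exp (g * u * Complex.I)‖ ^ 2 * Real.exp (-(η * u)) := by
  have e1 : ∀ u : ℝ, ((‖∑ g ∈ G, b g * Complex.exp (g * u * Complex.I)‖ ^ 2 * Real.exp (-(η * u)) : ℝ) : ℂ) =
      ∑ g ∈ G, ∑ k ∈ G, (b g * (starRingEnd ℂ) (b k)) *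
        Complex.exp (-((η : ℂ) - Complex.I * (g - k : ℝ)) * u) := by
    intro u
    rw [Complex.ofReal_mul, ← Complex.normSq_eq_norm_sq, ← Complex.mul_conj, map_sum, Finset.sum_mul_sum, Finset.sum_mul]
    apply Finset.sum_congr rfl
    intro g _
    rw [Finset.sum_mul]
    apply Finset.sum_congr rfl
    intro k _
    rw [map_mul, ← Complex.exp_conj, Complex.ofReal_exp]
    have e2 : (starRingEnd ℂ) ((k : ℂ) * u * Complex.I) = -((k : ℂ) * u * Complex.I) := by
      rw [map_mul, map_mul, Complex.conj_ofReal, Complex.conj_ofReal, Complex.conj_I]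
      ring
    rw [e2]
    calc b g * Complex.exp (g * u * Complex.I) * ((starRingEnd ℂ) (b k) * Complex.exp (-((k : ℂ) * u * Complex.I))) *
          Complex.exp ((-(η * u) : ℝ) : ℂ)
        = (b g * (starRingEnd ℂ) (b k)) * (Complex.exp (g * u * Complex.I) * Complex.exp (-((k : ℂ) * u * Complex.I)) *
          Complex.exp ((-(η * u) : ℝ) : ℂ)) := by ring
      _ = _ := by
          rw [← Complex.exp_add, ← Complex.exp_add]
          congr 2
          push_cast
          ring
  have e3 : ((∫ u in Ioi (0:ℝ), ‖∑ g ∈ G, b g * Complex.exp (g * u * Complex.I)‖ ^ 2 * Real.exp (-(η * u)) : ℝ) : ℂ) =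
      ∑ g ∈ G, ∑ k ∈ G, (b g * (starRingEnd ℂ) (b k)) * (1 / ((η : ℂ) - Complex.I * (g - k : ℝ))) := by
    rw [← integral_complex_ofReal]
    simp_rw [e1]
    rw [integral_finsetSum _ fun g _ => ?_]
    · apply Finset.sum_congr rfl
      intro g _
      rw [integral_finsetSum _ fun k _ => ((exp_term h (g - k)).1.const_mul _)]
      apply Finset.sum_congr rfl
      intro k _
      rw [integral_const_mul, (exp_term h (g - k)).2]
    · apply integrable_finsetSum
      intro k _
      exact (exp_term h (g - k)).1.const_mul _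
  have e4 : HA η G b = ((η * ∫ u in Ioi (0:ℝ), ‖∑ g ∈ G, b g * Complex.exp (g * u * Complex.I)‖ ^ 2 *
      Real.exp (-(η * u)) : ℝ) : ℂ) := by
    rw [Complex.ofReal_mul, e3, Finset.mul_sum]
    unfold HA kA
    apply Finset.sum_congr rfl
    intro g _
    rw [Finset.mul_sum]
    apply Finset.sum_congr rfl
    intro k _
    ring
  rw [e4, Complex.ofReal_re]

/-- **the value at the origin** -/
theorem lemA (G : Finset ℝ) (b : ℝ → ℂ) {η : ℝ} (h : 0 < η) :
    ‖∑ g ∈ G, b g‖ ^ 2 ≤ G.card * η *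
      ∫ u in Ioi (0:ℝ), ‖∑ g ∈ G, b g * Complex.exp (g * u * Complex.I)‖ ^ 2 * Real.exp (-(η * u)) := by
  rw [mul_assoc, ← HA_int h]
  exact HA_re h G b

end Pool.Agent.Helper95.QL
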