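import Pool.Agent.Helper95.QL.SH
import Pool.Agent.Helper88.QL.Inv

/-! # Project QL, block SH, second part: the transform of the averaged remainder -/

set_option autoImplicit false

namespace Pool.Agent.Helper95.QL

open MeasureTheory Set Filter Topology
open Pool.Agent.Helper18.ES (lam bb)
open Pool.Agent.Helper95.IT (pt pt_cont)
open Pool.Agent.Helper11.IT (pt_re pt_im)
open Pool.Agent.Helper99.MS (ff GB)
open Pool.Agent.Helper47.QL (pw_cont pw_pos one_le_pw pw_exp_int)

variable {B : ℝ}

theorem Rm_lap (h : GB (ff lam) B) {m : ℕ} (hm : 8 ≤ m) {s : ℂ} (h1 : -(1/4) < s.re) (h2 : s.re < 0) :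
    Integrable (fun v : ℝ => (Rm m v : ℂ) * Complex.exp (-(s * v))) ∧
      ∫ v : ℝ, (Rm m v : ℂ) * Complex.exp (-(s * v)) = Tq m (s + 1/2) := by
  have hm8 : (8:ℝ) ≤ m := by exact_mod_cast hm
  have hm0 : (0:ℝ) < m := by linarith
  have hB := h.nonneg
  obtain ⟨C1, hC1, hl⟩ := Rm_left
  obtain ⟨C2, hC2, hr⟩ := Rm_right
  have hcont := Rm_cont hm8
  set σ : ℝ := s.re with hσ
  set δ : ℝ := min (-σ) (1/4 + σ) with hδ
  have hδ0 : 0 < δ := lt_min (by linarith) (by linarith)
  have hδ1 : δ ≤ -σ := min_le_left _ _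
  have hδ2 : δ ≤ 1/4 + σ := min_le_right _ _
  set f : ℝ → ℂ := fun v => (Rm m v : ℂ) * Complex.exp (-(σ * v : ℝ)) with hf
  have hfc : Continuous f := by
    simp only [hf]
    exact (Complex.continuous_ofReal.comp hcont).mul (by fun_prop)
  have hfn : ∀ v : ℝ, ‖f v‖ ≤ (C1 * B * (m : ℝ) ^ 6 + C2 * m) * (pw v * Real.exp (-δ * |v|)) := by
    intro v
    have hp := one_le_pw v
    have hp0 := pw_pos v
    have e : ‖f v‖ = |Rm m v| * Real.exp (-(σ * v)) := by
      simp only [hf]
      rw [norm_mul, Complex.norm_real, Real.norm_eq_abs, ← Complex.ofReal_neg, ← Complex.ofReal_exp, Complex.norm_real,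
        Real.norm_of_nonneg (Real.exp_pos _).le]
    rw [e]
    have hE := Real.exp_pos (-δ * |v|)
    have c1 : 0 ≤ C1 * B * (m : ℝ) ^ 6 * (pw v * Real.exp (-δ * |v|)) := by positivity
    have c2 : 0 ≤ C2 * m * (pw v * Real.exp (-δ * |v|)) := by positivity
    rcases le_total v 0 with hv | hv
    · have h3 := hl B h m hm v hv
      have h4 : Real.exp (-(σ * v)) ≤ Real.exp (-δ * |v|) := by
        apply Real.exp_le_exp.2
        rw [abs_of_nonpos hv]
        nlinarith
      calc |Rm m v| * Real.exp (-(σ * v)) ≤ (C1 * B * (m : ℝ) ^ 6 * pw v) * Real.exp (-δ * |v|) :=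
            mul_le_mul h3 h4 (Real.exp_pos _).le (by positivity)
        _ ≤ _ := by nlinarith
    · have h3 := hr m hm8 v hv
      have h4 : Real.exp (-(v / 4)) * Real.exp (-(σ * v)) ≤ Real.exp (-δ * |v|) := by
        rw [← Real.exp_add]
        apply Real.exp_le_exp.2
        rw [abs_of_nonneg hv]
        nlinarith
      calc |Rm m v| * Real.exp (-(σ * v)) ≤ (C2 * m * Real.exp (-(v / 4))) * Real.exp (-(σ * v)) :=
            mul_le_mul_of_nonneg_right h3 (Real.exp_pos _).le
        _ = C2 * m * (Real.exp (-(v / 4)) * Real.exp (-(σ * v))) := by ring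
        _ ≤ C2 * m * Real.exp (-δ * |v|) := mul_le_mul_of_nonneg_left h4 (by positivity)
        _ ≤ C2 * m * (pw v * Real.exp (-δ * |v|)) := by
            apply mul_le_mul_of_nonneg_left _ (by positivity)
            nlinarith
        _ ≤ _ := by nlinarith
  have hfi : Integrable f := Integrable.mono' ((pw_exp_int hδ0).const_mul _) hfc.aestronglyMeasurable
    (Filter.Eventually.of_forall hfn)
  set c : ℝ := σ + 1/2 with hc
  have hc1 : 1/8 ≤ c := by rw [hc]; linarith
  have hc2 : c < 1/2 := by rw [hc]; linarith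
  have hrep : ∀ v : ℝ, f v = ((1 / (2 * Real.pi) : ℝ) : ℂ) * ∫ y : ℝ, Tq m (pt c y) * Complex.exp (Complex.I * y * v) := by
    intro v
    simp only [hf]
    rw [Rm_rep h hm hc1 hc2 v, mul_assoc, ← integral_mul_const]
    congr 1
    apply integral_congr_ae
    filter_upwards with y
    rw [mul_assoc, ← Complex.exp_add]
    congr 2
    rw [hc]
    unfold pt
    push_cast
    ring
  have hinv := Pool.Agent.Helper88.QL.inv_line hfi hfc (Tq_line_int h hm hc1 hc2)
    (Tq_line_cont h hm (by linarith) hc2) hrep s.im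
  have hs : s + 1/2 = pt c s.im := by
    apply Complex.ext
    · rw [pt_re, hc, hσ]
      simp
    · rw [pt_im]
      simp
  have hpt : ∀ v : ℝ, f v * Complex.exp (-(Complex.I * s.im * v)) = (Rm m v : ℂ) * Complex.exp (-(s * v)) := by
    intro v
    simp only [hf]
    rw [mul_assoc, ← Complex.exp_add]
    congr 2
    have h5 : (s : ℂ) = (σ : ℂ) + s.im * Complex.I := (Complex.re_add_im s).symm
    conv_rhs => rw [h5]
    push_cast
    ring
  constructor
  · have h6 : Integrable (fun v : ℝ => f v * Complex.exp (-(Complex.I * s.im * v))) := by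
      refine Integrable.mono' hfi.norm (hfc.mul (by fun_prop)).aestronglyMeasurable ?_
      filter_upwards with v
      rw [norm_mul, Complex.norm_exp]
      have : (-(Complex.I * s.im * (v : ℂ))).re = 0 := by simp
      rw [this, Real.exp_zero, mul_one]
    refine h6.congr ?_
    filter_upwards with v
    exact hpt v
  · rw [hs, ← hinv]
    apply integral_congr_ae
    filter_upwards with v
    exact (hpt v).symm

end Pool.Agent.Helper95.QL
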