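import Pool.Agent.Helper95.QL.Defs
import Pool.Agent.Helper57.LH.ZetaBd

/-! # Project QL, block RZ: zeta under a growth bound of the Liouville sum -/

set_option autoImplicit false

namespace Pool.Agent.Helper95.QL

open MeasureTheory Set Filter Topology
open Pool.Agent.Helper18.ES (lam lam_le lam_conv)
open Pool.Agent.Helper13.Mob (Z1 Z1_diff Z1_eq zeta_ana simple_pole)
open Pool.Agent.Helper99.MS (ell ff GB Lp lap_diff lap_bd lap_LSeries ff_meas ff_neg ell_le_sqrt)

variable {B : ℝ}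

/-- the transform of the normalised Liouville sum -/
noncomputable def Fl : ℂ → ℂ := Lp (fun u => (ff lam u : ℂ))

theorem Fl_diff (h : GB (ff lam) B) {s : ℂ} (hs : 0 < s.re) : DifferentiableAt ℂ Fl s :=
  lap_diff (ff_meas lam) h (fun _ hu => ff_neg hu) hs

/-- the Dirichlet series of the Liouville function -/
theorem ls_lam {w : ℂ} (hw : 1 < w.re) :
    LSeries (fun n => (lam n : ℂ)) w * riemannZeta w = riemannZeta (2 * w) := by
  classical
  have hs1 : LSeriesSummable (fun n => (lam n : ℂ)) w := by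
    apply LSeriesSummable_of_bounded_of_one_lt_re (m := 1) _ hw
    intro n _
    rw [Complex.norm_real]
    exact lam_le n
  have hs2 : LSeriesSummable (1 : ℕ → ℂ) w := LSeriesSummable_one_iff.2 hw
  have h2 := LSeries_convolution' hs1 hs2
  rw [LSeries_one_eq_riemannZeta hw] at h2
  rw [← h2]
  have hw0 : w ≠ 0 := by
    intro h
    rw [h] at hw
    simp at hw
    linarith
  have h2w : 1 < (2 * w).re := by
    simp
    linarith
  have h2w0 : 2 * w ≠ 0 := by simpa using hw0
  rw [zeta_eq_tsum_one_div_nat_cpow h2w]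
  unfold LSeries
  have hinj : Function.Injective (fun m : ℕ => m * m) := fun a b h => by
    simp only at h
    exact Nat.mul_self_inj.1 h
  have hconv : ∀ n : ℕ, n ≠ 0 → LSeries.convolution (fun n => (lam n : ℂ)) (1 : ℕ → ℂ) n = if IsSquare n then 1 else 0 := by
    intro n hn
    have h3 := lam_conv ⟨n, Nat.pos_of_ne_zero hn⟩
    rw [LSeries.convolution_def]
    simp only [Pi.one_apply, mul_one]
    have h4 : (((∑ d ∈ n.divisorsAntidiagonal, lam d.1 : ℝ)) : ℂ) = if IsSquare n then 1 else 0 := by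
      simp only [PNat.mk_coe] at h3
      rw [h3]
      by_cases hq : IsSquare n
      · simp [hq]
      · simp [hq]
    rw [← h4]
    push_cast
    rfl
  have hsupp : Function.support (LSeries.term (LSeries.convolution (fun n => (lam n : ℂ)) (1 : ℕ → ℂ)) w) ⊆
      Set.range (fun m : ℕ => m * m) := by
    intro n hn
    rw [Function.mem_support] at hn
    rcases eq_or_ne n 0 with h0 | h0
    · rw [h0] at hn
      simp at hn
    · rw [LSeries.term_of_ne_zero h0, hconv n h0] at hn
      by_cases hq : IsSquare n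
      · obtain ⟨r, hr⟩ := hq
        exact ⟨r, hr.symm⟩
      · rw [if_neg hq, zero_div] at hn
        exact absurd rfl hn
  rw [← hinj.tsum_eq hsupp]
  apply tsum_congr
  intro m
  rcases eq_or_ne m 0 with h0 | h0
  · rw [h0]
    simp [Complex.zero_cpow h2w0]
  · have h5 : m * m ≠ 0 := mul_ne_zero h0 h0
    rw [LSeries.term_of_ne_zero h5, hconv _ h5, if_pos ⟨m, rfl⟩]
    congr 1
    rw [Nat.cast_mul, Complex.natCast_mul_natCast_cpow, ← Complex.cpow_add _ _ (by exact_mod_cast h0), two_mul]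

theorem Fl_gt {w : ℂ} (hw : 1 < w.re) : w * riemannZeta w * Fl (w - 1/2) = riemannZeta (2 * w) := by
  have h1 := lap_LSeries lam_le hw
  rw [← ls_lam hw, ← h1]
  unfold Fl
  ring

theorem rz_eq' (h : GB (ff lam) B) {w : ℂ} (hw : 1/2 < w.re) (hw1 : w ≠ 1) :
    w * riemannZeta w * Fl (w - 1/2) = riemannZeta (2 * w) := by
  set U : Set ℂ := {z | 1/2 < z.re} with hU
  have hUo : IsOpen U := isOpen_lt continuous_const Complex.continuous_re
  have hUc : IsPreconnected U := (convex_halfSpace_re_gt (1/2)).isPreconnected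
  have hf : AnalyticOnNhd ℂ (fun z => z * Z1 z * Fl (z - 1/2)) U := by
    apply DifferentiableOn.analyticOnNhd _ hUo
    intro z hz
    have hz' : 0 < (z - 1/2).re := by
      have : 1/2 < z.re := hz
      simp only [Complex.sub_re, Complex.div_ofNat_re, Complex.one_re]
      linarith
    apply DifferentiableAt.differentiableWithinAt
    apply (differentiableAt_id.mul (Z1_diff z)).mul
    exact (Fl_diff h hz').comp z (by fun_prop)
  have hg : AnalyticOnNhd ℂ (fun z : ℂ => (z - 1) * riemannZeta (2 * z)) U := by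
    apply DifferentiableOn.analyticOnNhd _ hUo
    intro z hz
    have hz' : 1/2 < z.re := hz
    apply DifferentiableAt.differentiableWithinAt
    apply DifferentiableAt.mul (by fun_prop)
    apply DifferentiableAt.comp (g := riemannZeta) (f := fun z : ℂ => 2 * z) z _ (by fun_prop)
    apply differentiableAt_riemannZeta
    intro h1
    have h2 := congrArg Complex.re h1
    simp at h2
    linarith
  have h2 : (2:ℂ) ∈ U := by
    show (1/2:ℝ) < (2:ℂ).re
    norm_num
  have hev : (fun z => z * Z1 z * Fl (z - 1/2)) =ᶠ[𝓝 2] (fun z => (z - 1) * riemannZeta (2 * z)) := by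
    have : {z : ℂ | 1 < z.re} ∈ 𝓝 (2:ℂ) := by
      apply (isOpen_lt continuous_const Complex.continuous_re).mem_nhds
      show (1:ℝ) < (2:ℂ).re
      norm_num
    filter_upwards [this] with z hz
    have hz' : 1 < z.re := hz
    have hz1 : z ≠ 1 := by
      intro h
      rw [h] at hz'
      simp at hz'
    have := Fl_gt hz'
    rw [Z1_eq hz1]
    calc _ = (z - 1) * (z * riemannZeta z * Fl (z - 1/2)) := by ring
      _ = _ := by rw [this]
  have := hf.eqOn_of_preconnected_of_eventuallyEq hg hUc h2 hev hw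
  simp only at this
  rw [Z1_eq hw1] at this
  have hne : w - 1 ≠ 0 := sub_ne_zero.2 hw1
  apply mul_left_cancel₀ hne
  calc _ = w * ((w - 1) * riemannZeta w) * Fl (w - 1/2) := by ring
    _ = _ := this

theorem rz_eq (h : GB (ff lam) B) {w : ℂ} (hw : 1/2 < w.re) (hw1 : w ≠ 1) :
    w * riemannZeta w * Pool.Agent.Helper99.MS.Lp (fun u => (ff lam u : ℂ)) (w - 1/2) = riemannZeta (2 * w) :=
  rz_eq' h hw hw1

theorem rz_right (h : GB (ff lam) B) {w : ℂ} (hw : 1/2 < w.re) (hw1 : w ≠ 1) : riemannZeta w ≠ 0 := by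
  intro hz
  have h1 := rz_eq' h hw hw1
  rw [hz] at h1
  simp only [mul_zero, zero_mul] at h1
  refine riemannZeta_ne_zero_of_one_lt_re (s := 2 * w) ?_ h1.symm
  simp
  linarith

theorem rz_left (h : GB (ff lam) B) {w : ℂ} (hw : w.re < 1/2) (hw0 : 0 < w.re) : riemannZeta w ≠ 0 := by
  intro hz
  have hw1 : w ≠ 1 := by
    intro h; rw [h] at hw; norm_num at hw
  have hwn : ∀ n : ℕ, w ≠ -n := by
    intro n hn
    rw [hn] at hw0
    simp only [Complex.neg_re, Complex.natCast_re] at hw0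
    have hm0 : (0:ℝ) ≤ n := Nat.cast_nonneg n
    linarith
  have e := riemannZeta_one_sub hwn hw1
  rw [hz, mul_zero] at e
  refine rz_right h (w := 1 - w) ?_ ?_ e
  · simp only [Complex.sub_re, Complex.one_re]
    linarith
  · intro h1
    have : w = 0 := by
      have := congrArg (fun z => 1 - z) h1
      simpa using this
    rw [this] at hw0
    simp at hw0

/-- growth of the transform near the imaginary axis -/
theorem Fl_bound (h : GB (ff lam) B) {s : ℂ} (hs : 0 < s.re) :
    ‖Fl s‖ ≤ B * ((1 / √s.re + √s.re) / s.re + √s.re / s.re ^ 2) := by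
  set σ := s.re with hσ
  set η := √σ with hη
  have hη0 : 0 < η := Real.sqrt_pos.2 hs
  have hB := h.nonneg
  have hI : ∀ u : ℝ, 0 < u → ell u ≤ (1 / η + η) + η * u := by
    intro u hu
    have h1 := ell_le_sqrt u
    rw [abs_of_pos hu] at h1
    have h2 : 2 * √(1 + u) ≤ 1 / η + η * (1 + u) := by
      have h3 : 0 ≤ (1 / η) * (1 - η * √(1 + u)) ^ 2 := by positivity
      have h4 : √(1 + u) ^ 2 = 1 + u := Real.sq_sqrt (by linarith)
      have h5 : (1 / η) * (1 - η * √(1 + u)) ^ 2 = 1 / η - 2 * √(1 + u) + η * √(1 + u) ^ 2 := by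
        field_simp
        ring
      rw [h5, h4] at h3
      linarith
    linarith
  have i1 : IntegrableOn (fun u : ℝ => Real.exp (-(σ * u))) (Set.Ioi 0) := by
    have := integrableOn_exp_mul_Ioi (a := -σ) (by linarith) 0
    simpa using this
  have v1 : ∫ u in Set.Ioi (0:ℝ), Real.exp (-(σ * u)) = 1 / σ := by
    have := integral_exp_mul_Ioi (a := -σ) (by linarith) 0
    simp only [neg_mul, mul_zero, Real.exp_zero] at this
    rw [this]
    field_simp
  have v2 : ∫ u in Set.Ioi (0:ℝ), u * Real.exp (-(σ * u)) = 1 / σ ^ 2 := by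
    have := Real.integral_rpow_mul_exp_neg_mul_Ioi (a := 2) (r := σ) (by norm_num) hs
    have e : ∫ u in Set.Ioi (0:ℝ), u * Real.exp (-(σ * u)) =
        ∫ (t : ℝ) in Set.Ioi 0, t ^ ((2:ℝ) - 1) * Real.exp (-(σ * t)) := by
      apply setIntegral_congr_fun measurableSet_Ioi
      intro u hu
      simp only
      rw [show (2:ℝ) - 1 = 1 by norm_num, Real.rpow_one]
    rw [e, this, Real.Gamma_two, mul_one]
    rw [show (2:ℝ) = ((2:ℕ):ℝ) by norm_num, Real.rpow_natCast]
    simp
  have i2 : IntegrableOn (fun u : ℝ => u * Real.exp (-(σ * u))) (Set.Ioi 0) := by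
    by_contra hc
    have h0 := integral_undef hc
    rw [v2] at h0
    have : 0 < 1 / σ ^ 2 := by positivity
    linarith
  have hi3 : IntegrableOn (fun u : ℝ => B * (((1 / η + η) * Real.exp (-(σ * u))) +
      η * (u * Real.exp (-(σ * u))))) (Set.Ioi 0) :=
    ((i1.const_mul _).add (i2.const_mul _)).const_mul B
  unfold Fl Pool.Agent.Helper99.MS.Lp
  rw [← setIntegral_eq_integral_of_forall_compl_eq_zero (s := Set.Ici (0:ℝ)), integral_Ici_eq_integral_Ioi]
  · calc ‖∫ u in Set.Ioi (0:ℝ), (ff lam u : ℂ) * Complex.exp (-(s * u))‖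
        ≤ ∫ u in Set.Ioi (0:ℝ), B * (((1 / η + η) * Real.exp (-(σ * u))) +
            η * (u * Real.exp (-(σ * u)))) := by
          apply norm_integral_le_of_norm_le hi3
          rw [ae_restrict_iff' measurableSet_Ioi]
          apply Filter.Eventually.of_forall
          intro u hu
          have hu' : (0:ℝ) < u := hu
          have h1 := lap_bd h (fun _ hu => ff_neg hu) s u
          refine h1.trans ?_
          rw [abs_of_pos hu', ← hσ]
          have h2 := hI u hu'
          have h3 : Real.exp (-σ * u) = Real.exp (-(σ * u)) := by ring_nf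
          rw [h3]
          apply mul_le_mul_of_nonneg_left _ hB
          calc ell u * Real.exp (-(σ * u)) ≤ ((1 / η + η) + η * u) * Real.exp (-(σ * u)) :=
                mul_le_mul_of_nonneg_right h2 (Real.exp_pos _).le
            _ = _ := by ring
      _ = _ := by
          rw [integral_const_mul, integral_add (i1.const_mul _) (i2.const_mul _), integral_const_mul,
            integral_const_mul, v1, v2]
          ring
  · intro u hu
    have h2 : u < 0 := lt_of_not_ge hu
    simp only [ff_neg h2]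
    simp

theorem zeta_half_ne0 : riemannZeta (1 / 2) ≠ 0 := by
  intro h
  have h1 := Pool.Agent.Helper18.ES.zeta_half_ne
  rw [h] at h1
  simp at h1

theorem rz_simple (h : GB (ff lam) B) {w₀ : ℂ} (hw : w₀.re = 1/2)
    (hz : riemannZeta w₀ = 0) : deriv riemannZeta w₀ ≠ 0 := by
  intro hd
  have hw1 : w₀ ≠ 1 := by
    intro h1; rw [h1] at hw; norm_num at hw
  have h2w1 : 2 * w₀ ≠ 1 := by
    intro h1
    have h2 : w₀ = 1 / 2 := by
      rw [← h1]
      ring
    rw [h2] at hz
    exact zeta_half_ne0 hz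
  have hB := h.nonneg
  set F := dslope riemannZeta w₀ with hF
  have hFd : DifferentiableAt ℂ F w₀ := by
    have h1 : ∀ᶠ w in 𝓝 w₀, AnalyticAt ℂ riemannZeta w := (zeta_ana hw1).eventually_analyticAt
    obtain ⟨ε, hε, hball⟩ := Metric.eventually_nhds_iff_ball.1 h1
    have h2 : DifferentiableOn ℂ riemannZeta (Metric.ball w₀ ε) := fun z hz =>
      (hball z hz).differentiableAt.differentiableWithinAt
    have h3 : DifferentiableOn ℂ F (Metric.ball w₀ ε) :=
      (Complex.differentiableOn_dslope (Metric.ball_mem_nhds _ hε)).2 h2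
    exact h3.differentiableAt (Metric.ball_mem_nhds _ hε)
  have hF0 : F w₀ = 0 := by rw [hF, dslope_same, hd]
  have hslope := hFd.hasDerivAt.tendsto_slope
  have hpath : Tendsto (fun σ : ℝ => w₀ + σ) (𝓝[>] 0) (𝓝[≠] w₀) := by
    rw [tendsto_nhdsWithin_iff]
    constructor
    · have : Tendsto (fun σ : ℝ => w₀ + (σ : ℂ)) (𝓝 0) (𝓝 (w₀ + ((0:ℝ):ℂ))) := by
        apply Continuous.tendsto
        fun_prop
      rw [Complex.ofReal_zero, add_zero] at this
      exact this.mono_left nhdsWithin_le_nhds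
    · filter_upwards [self_mem_nhdsWithin] with σ hσ
      have hσ' : (0:ℝ) < σ := hσ
      simp only [Set.mem_compl_iff, Set.mem_singleton_iff]
      intro h1
      have : (σ : ℂ) = 0 := by
        have := congrArg (fun z => z - w₀) h1
        simpa using this
      rw [Complex.ofReal_eq_zero] at this
      linarith
  have h1 := (hslope.comp hpath).norm
  have h2 : Tendsto (fun σ : ℝ => ‖w₀ + σ‖) (𝓝[>] 0) (𝓝 ‖w₀‖) := by
    have : Tendsto (fun σ : ℝ => ‖w₀ + (σ : ℂ)‖) (𝓝 0) (𝓝 ‖w₀ + ((0:ℝ):ℂ)‖) := by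
      apply Continuous.tendsto
      fun_prop
    rw [Complex.ofReal_zero, add_zero] at this
    exact this.mono_left nhdsWithin_le_nhds
  have h3 : Tendsto (fun σ : ℝ => B * ((√σ + √σ * σ) + √σ)) (𝓝[>] 0) (𝓝 (B * ((√0 + √0 * 0) + √0))) := by
    apply Tendsto.mono_left _ nhdsWithin_le_nhds
    apply Continuous.tendsto
    fun_prop
  have hub := (h2.mul h1).mul h3
  simp only [Real.sqrt_zero, add_zero, mul_zero] at hub
  have hzc : Tendsto (fun σ : ℝ => ‖riemannZeta (2 * (w₀ + σ))‖) (𝓝[>] 0) (𝓝 ‖riemannZeta (2 * w₀)‖) := by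
    have hc : ContinuousAt (fun σ : ℝ => ‖riemannZeta (2 * (w₀ + (σ:ℂ)))‖) 0 := by
      have e : (2 * (w₀ + ((0:ℝ):ℂ))) = 2 * w₀ := by simp
      apply ContinuousAt.norm
      apply ContinuousAt.comp (g := riemannZeta) (f := fun σ : ℝ => 2 * (w₀ + (σ:ℂ)))
      · simp only [e]
        exact (differentiableAt_riemannZeta h2w1).continuousAt
      · apply Continuous.continuousAt
        fun_prop
    have h5 := hc.tendsto
    have e : (2 * (w₀ + ((0:ℝ):ℂ))) = 2 * w₀ := by simp
    rw [e] at h5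
    exact h5.mono_left nhdsWithin_le_nhds
  have hone : ∀ᶠ σ : ℝ in 𝓝[>] 0, ‖riemannZeta (2 * (w₀ + σ))‖ ≤
      ‖w₀ + σ‖ * (norm ∘ (slope F w₀ ∘ fun σ : ℝ => w₀ + σ)) σ *
      (B * ((√σ + √σ * σ) + √σ)) := by
    filter_upwards [Ioo_mem_nhdsGT (show (0:ℝ) < 1/2 by norm_num)] with σ hσ
    have hσ0 : 0 < σ := hσ.1
    have hre : (w₀ + σ).re = 1/2 + σ := by simp [hw]
    have hgt : 1/2 < (w₀ + σ).re := by rw [hre]; linarith
    have hlt : (w₀ + σ).re < 1 := by rw [hre]; linarith [hσ.2]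
    have hne1 : w₀ + σ ≠ 1 := by
      intro h2
      rw [h2] at hlt
      simp at hlt
    have hne0 : w₀ + (σ:ℂ) ≠ w₀ := by
      intro h2
      have : (σ : ℂ) = 0 := by
        have := congrArg (fun z => z - w₀) h2
        simpa using this
      rw [Complex.ofReal_eq_zero] at this
      linarith
    have h4 := rz_eq' h hgt hne1
    have h5 : riemannZeta (w₀ + σ) = (σ : ℂ) * ((σ : ℂ) * slope F w₀ (w₀ + σ)) := by
      rw [slope_def_field, hF0, sub_zero, add_sub_cancel_left, hF, dslope_of_ne _ hne0, slope_def_field, hz,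
        sub_zero, add_sub_cancel_left]
      have : (σ : ℂ) ≠ 0 := by exact_mod_cast hσ0.ne'
      field_simp
    have h6 : 0 < (w₀ + σ - 1/2).re := by
      simp only [Complex.sub_re, Complex.div_ofNat_re, Complex.one_re]
      linarith
    have h7 := Fl_bound h h6
    have h8 : (w₀ + σ - 1/2).re = σ := by
      simp [hw]
    rw [h8] at h7
    rw [← h4, norm_mul, norm_mul, h5, norm_mul, norm_mul, Complex.norm_real, Real.norm_of_nonneg hσ0.le]
    simp only [Function.comp_apply]
    have hs2 : √σ * √σ = σ := Real.mul_self_sqrt hσ0.le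
    have hsp : 0 < √σ := Real.sqrt_pos.2 hσ0
    calc ‖w₀ + σ‖ * (σ * (σ * ‖slope F w₀ (w₀ + σ)‖)) * ‖Fl (w₀ + σ - 1/2)‖
        ≤ ‖w₀ + σ‖ * (σ * (σ * ‖slope F w₀ (w₀ + σ)‖)) *
          (B * ((1 / √σ + √σ) / σ + √σ / σ ^ 2)) := mul_le_mul_of_nonneg_left h7 (by positivity)
      _ = ‖w₀ + σ‖ * ‖slope F w₀ (w₀ + σ)‖ * (B * ((σ / √σ + √σ * σ) + √σ)) := by
          field_simp
      _ = _ := by
          rw [show σ / √σ = √σ by rw [div_eq_iff hsp.ne']; exact hs2.symm]
  have h9 := le_of_tendsto_of_tendsto hzc hub hone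
  have h10 : riemannZeta (2 * w₀) ≠ 0 := by
    apply riemannZeta_ne_zero_of_one_le_re
    simp [hw]
  have h11 : 0 < ‖riemannZeta (2 * w₀)‖ := norm_pos_iff.2 h10
  linarith

/-- the inverse of zeta to the right of `1` -/
theorem inv_zeta_gt {z : ℂ} (hz : 1 < z.re) : ‖(riemannZeta z)⁻¹‖ ≤ z.re / (z.re - 1) + 1 := by
  have h1 : (riemannZeta z)⁻¹ = LSeries (fun n => ((ArithmeticFunction.moebius n : ℤ) : ℂ)) z := by
    have h2 := LSeries_one_mul_Lseries_moebius hz
    rw [LSeries_one_eq_riemannZeta hz] at h2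
    exact (eq_inv_of_mul_eq_one_right h2).symm
  have hx1 : (1:ℝ) < ((z.re : ℝ) : ℂ).re := by simpa using hz
  have hsum : Summable (fun n : ℕ => 1 / (n : ℝ) ^ z.re) := Real.summable_one_div_nat_rpow.2 hz
  have h3 : ‖LSeries (fun n => ((ArithmeticFunction.moebius n : ℤ) : ℂ)) z‖ ≤ ∑' n : ℕ, 1 / (n : ℝ) ^ z.re := by
    unfold LSeries
    apply tsum_of_norm_bounded hsum.hasSum
    intro n
    rw [LSeries.norm_term_eq]
    split_ifs with h0
    · positivity
    · apply div_le_div_of_nonneg_right _ (by positivity)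
      rw [← Complex.ofReal_intCast, Complex.norm_real, Real.norm_eq_abs, ← Int.cast_abs]
      exact_mod_cast ArithmeticFunction.abs_moebius_le_one
  have h4 : ((∑' n : ℕ, 1 / (n : ℝ) ^ z.re : ℝ) : ℂ) = riemannZeta ((z.re : ℝ) : ℂ) := by
    rw [zeta_eq_tsum_one_div_nat_cpow hx1, Complex.ofReal_tsum]
    apply tsum_congr
    intro n
    rw [Complex.ofReal_div, Complex.ofReal_one, Complex.ofReal_cpow (Nat.cast_nonneg n)]
    simp
  have h5 : ∑' n : ℕ, 1 / (n : ℝ) ^ z.re ≤ ‖riemannZeta ((z.re : ℝ) : ℂ)‖ := by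
    rw [← h4, Complex.norm_real]
    exact le_abs_self _
  have h6 := Pool.Agent.Helper57.LH.zeta_eq_J hx1
  have h7 := Pool.Agent.Helper57.LH.norm_Jf1_le (s := ((z.re : ℝ) : ℂ)) (by linarith)
  have hz0 : 0 < z.re := by linarith
  rw [h1]
  refine h3.trans (h5.trans ?_)
  rw [h6]
  refine (norm_sub_le _ _).trans ?_
  have e1 : ‖((z.re : ℝ) : ℂ) / (((z.re : ℝ) : ℂ) - 1)‖ = z.re / (z.re - 1) := by
    rw [← Complex.ofReal_one, ← Complex.ofReal_sub, ← Complex.ofReal_div, Complex.norm_real,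
      Real.norm_of_nonneg (div_nonneg hz0.le (by linarith))]
  rw [e1]
  apply add_le_add le_rfl
  rw [norm_mul, Complex.norm_real, Real.norm_of_nonneg hz0.le]
  rw [Complex.ofReal_re] at h7
  calc z.re * ‖_‖ ≤ z.re * (1 / z.re) := mul_le_mul_of_nonneg_left h7 hz0.le
    _ = 1 := by field_simp

theorem rz_inv : ∃ C : ℝ, 0 < C ∧ ∀ B : ℝ, GB (ff lam) B → ∀ w : ℂ, 1/2 < w.re → w.re ≤ 1 → w ≠ 1 →
    ‖(riemannZeta w)⁻¹‖ ≤ C * B * ‖w‖ * (w.re - 1/2) ^ (-3 : ℤ) := by
  refine ⟨8, by norm_num, fun B h w hw hw2 hw1 => ?_⟩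
  have hB := h.nonneg
  set σ := w.re - 1/2 with hσ
  have hσ0 : 0 < σ := by linarith
  have hσ1 : σ ≤ 1/2 := by linarith
  have h2w : 1 < (2 * w).re := by
    simp
    linarith
  have hne := riemannZeta_ne_zero_of_one_lt_re h2w
  have hz := rz_right h hw hw1
  have h1 := rz_eq' h hw hw1
  have e : (riemannZeta w)⁻¹ = w * Fl (w - 1/2) * (riemannZeta (2 * w))⁻¹ := by
    generalize Fl (w - 1/2) = f at h1
    rw [eq_mul_inv_iff_mul_eq₀ hne, ← h1]
    calc (riemannZeta w)⁻¹ * (w * riemannZeta w * f) = (w * f) * ((riemannZeta w)⁻¹ * riemannZeta w) := by ring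
      _ = w * f := by rw [inv_mul_cancel₀ hz, mul_one]
  have h3 := inv_zeta_gt h2w
  have hs : 0 < (w - 1/2).re := by
    simp only [Complex.sub_re, Complex.div_ofNat_re, Complex.one_re]
    linarith
  have hsσ : (w - 1/2).re = σ := by
    simp [hσ]
  have h4 := Fl_bound h hs
  rw [hsσ] at h4
  have hre : (2 * w).re = 1 + 2 * σ := by
    simp [hσ]
    ring
  rw [hre] at h3
  have h5 : (1 + 2 * σ) / (1 + 2 * σ - 1) + 1 ≤ 3 / 2 / σ := by
    rw [show 1 + 2 * σ - 1 = 2 * σ by ring, div_add_one (by positivity), div_le_div_iff₀ (by positivity) hσ0]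
    nlinarith
  have hsq : 0 < √σ := Real.sqrt_pos.2 hσ0
  have hss : √σ * √σ = σ := Real.mul_self_sqrt hσ0.le
  have hsq1 : √σ ≤ 1 := Real.sqrt_le_one.2 (by linarith)
  have hσs : σ ≤ √σ := by nlinarith
  have h6 : (1 / √σ + √σ) / σ + √σ / σ ^ 2 ≤ 5 / 2 / σ ^ 2 := by
    have e1 : (1 / √σ + √σ) / σ + √σ / σ ^ 2 = ((1 / √σ + √σ) * σ + √σ) / σ ^ 2 := by
      field_simp
    rw [e1]
    apply div_le_div_of_nonneg_right _ (by positivity)
    have e2 : 1 / √σ * σ = √σ := by
      rw [← hss]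
      field_simp
      rw [Real.sqrt_sq hsq.le]
    have : (1 / √σ + √σ) * σ = √σ + √σ * σ := by
      rw [add_mul, e2]
    rw [this]
    nlinarith
  rw [e, norm_mul, norm_mul]
  have h7 : ‖Fl (w - 1/2)‖ ≤ B * (5 / 2 / σ ^ 2) := h4.trans (mul_le_mul_of_nonneg_left h6 hB)
  calc ‖w‖ * ‖Fl (w - 1/2)‖ * ‖(riemannZeta (2 * w))⁻¹‖
      ≤ ‖w‖ * (B * (5 / 2 / σ ^ 2)) * (3 / 2 / σ) := by
        apply mul_le_mul _ (h3.trans h5) (norm_nonneg _) (by positivity)
        exact mul_le_mul_of_nonneg_left h7 (norm_nonneg _)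
    _ = (15 / 4) * (B * ‖w‖ * σ ^ (-3 : ℤ)) := by
        rw [zpow_neg]
        field_simp
        norm_cast
        ring
    _ ≤ 8 * (B * ‖w‖ * σ ^ (-3 : ℤ)) := by
        apply mul_le_mul_of_nonneg_right (by norm_num)
        positivity
    _ = _ := by ring

end Pool.Agent.Helper95.QL
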