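import Pool.Agent.Helper95.QL.LB
import Pool.Agent.Helper95.IT.Rem
import Pool.Agent.Helper51.IT.Uniq
import Pool.Agent.Helper47.QL.K8
import Pool.Agent.Helper83.BDF.Shift
import Pool.Agent.Helper99.MS.Spec

/-! # Project QL, block SH: the averaged remainder, its spectral form and its growth -/

set_option autoImplicit false

namespace Pool.Agent.Helper95.QL

open MeasureTheory Set Filter Topology
open Pool.Agent.Helper18.ES (lam bb)
open Pool.Agent.Helper71.LA (CI CI_nonneg)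
open Pool.Agent.Helper95.IT (rho pt rho_cont rho_bd rho_bd3 rho_rep Gq rt norm_ex pt_cont xi_pt_ne)
open Pool.Agent.Helper11.IT (pt_re pt_im GG_int)
open Pool.Agent.Helper99.MS (ff GB khat al al_cont al_bd al_tr khat_ana)

variable {B : ℝ}

/-- the constant -/
noncomputable def Ar : ℝ := 2 * (1 + CI + |bb|) + |bb|

theorem Ar_pos : 0 < Ar := by
  unfold Ar
  have := CI_nonneg
  have := abs_nonneg bb
  linarith

theorem rho_all (u : ℝ) : |rho u| ≤ Ar * (Real.exp (-(u / 2)) + Real.exp (-(3 * u / 4))) := by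
  have hA := Ar_pos
  have hC := CI_nonneg
  have hb := abs_nonneg bb
  have e1 := Real.exp_pos (-(u / 2))
  have e2 := Real.exp_pos (-(3 * u / 4))
  rcases le_total 0 u with h | h
  · have h1 := rho_bd h
    rw [show -u / 2 = -(u / 2) by ring] at h1
    have h2 : (1 + CI) * Real.exp (-(u / 2)) ≤ Ar * Real.exp (-(u / 2)) := by
      apply mul_le_mul_of_nonneg_right _ e1.le
      unfold Ar
      linarith
    nlinarith
  · have h1 := rho_bd3 u
    rw [abs_of_nonpos h, show 3 / 4 * -u = -(3 * u / 4) by ring] at h1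
    have h2 : |rho u| ≤ Ar * Real.exp (-(3 * u / 4)) := h1
    nlinarith

theorem dom1 {m : ℝ} (hm : 8 ≤ m) (v t : ℝ) : ‖rho (v - t) * al m t‖ ≤
    (Ar * m * Real.exp 4 * (Real.exp (-(v / 2)) + Real.exp (-(3 * v / 4)))) * Real.exp (-(1/4) * |t|) := by
  have hA := Ar_pos
  rw [norm_mul, Real.norm_eq_abs, Real.norm_eq_abs]
  have h1 := rho_all (v - t)
  have h2 := al_bd (by linarith : 4 ≤ m) t
  have ht := abs_nonneg t
  have ht1 := le_abs_self t
  have k1 : Real.exp (-((v - t) / 2)) * Real.exp (-|t|) ≤ Real.exp (-(v / 2)) * Real.exp (-(1/4) * |t|) := by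
    rw [← Real.exp_add, ← Real.exp_add]
    apply Real.exp_le_exp.2
    linarith
  have k2 : Real.exp (-(3 * (v - t) / 4)) * Real.exp (-|t|) ≤ Real.exp (-(3 * v / 4)) * Real.exp (-(1/4) * |t|) := by
    rw [← Real.exp_add, ← Real.exp_add]
    apply Real.exp_le_exp.2
    linarith
  calc |rho (v - t)| * |al m t| ≤ (Ar * (Real.exp (-((v - t) / 2)) + Real.exp (-(3 * (v - t) / 4)))) *
        (m * (Real.exp 4 * Real.exp (-|t|))) := mul_le_mul h1 h2 (abs_nonneg _) (by positivity)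
    _ = Ar * m * Real.exp 4 * (Real.exp (-((v - t) / 2)) * Real.exp (-|t|) + Real.exp (-(3 * (v - t) / 4)) * Real.exp (-|t|)) := by
        ring
    _ ≤ Ar * m * Real.exp 4 * (Real.exp (-(v / 2)) * Real.exp (-(1/4) * |t|) + Real.exp (-(3 * v / 4)) * Real.exp (-(1/4) * |t|)) := by
        apply mul_le_mul_of_nonneg_left (add_le_add k1 k2) (by positivity)
    _ = _ := by ring

theorem exp4_int : Integrable (fun t : ℝ => Real.exp (-(1/4) * |t|)) := by
  have h := Pool.Agent.Helper99.MS.ell_exp_int (show (0:ℝ) < 1/4 by norm_num)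
  refine Integrable.mono' h (by fun_prop) ?_
  apply Filter.Eventually.of_forall
  intro t
  rw [Real.norm_of_nonneg (Real.exp_pos _).le]
  have h1 := Pool.Agent.Helper99.MS.one_le_ell t
  have h2 := Real.exp_pos (-(1/4) * |t|)
  nlinarith

theorem Rm_int {m : ℝ} (hm : 8 ≤ m) (v : ℝ) : Integrable (fun t : ℝ => rho (v - t) * al m t) := by
  refine Integrable.mono' (exp4_int.const_mul _) ?_ (Filter.Eventually.of_forall (dom1 hm v))
  exact ((rho_cont.comp (by fun_prop)).mul (al_cont m)).aestronglyMeasurable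

theorem Rm_cont {m : ℝ} (hm : 8 ≤ m) : Continuous (Rm m) := by
  have hA := Ar_pos
  rw [continuous_iff_continuousAt]
  intro v₀
  unfold Rm
  apply continuousAt_of_dominated (bound := fun t => (Ar * m * Real.exp 4 * (Real.exp (-((v₀ - 1) / 2)) +
    Real.exp (-(3 * (v₀ - 1) / 4)))) * Real.exp (-(1/4) * |t|))
  · apply Filter.Eventually.of_forall
    intro v
    exact (Rm_int hm v).1
  · filter_upwards [Metric.ball_mem_nhds v₀ one_pos] with v hv
    apply Filter.Eventually.of_forall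
    intro t
    rw [Metric.mem_ball, Real.dist_eq, abs_lt] at hv
    refine (dom1 hm v t).trans ?_
    apply mul_le_mul_of_nonneg_right _ (Real.exp_pos _).le
    apply mul_le_mul_of_nonneg_left _ (by positivity)
    apply add_le_add <;> apply Real.exp_le_exp.2 <;> linarith [hv.1]
  · exact exp4_int.const_mul _
  · apply Filter.Eventually.of_forall
    intro t
    exact ((rho_cont.comp (by fun_prop : Continuous (fun v : ℝ => v - t))).mul continuous_const).continuousAt

theorem Rm_all {m : ℝ} (hm : 8 ≤ m) (v : ℝ) : |Rm m v| ≤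
    (Ar * m * Real.exp 4 * (Real.exp (-(v / 2)) + Real.exp (-(3 * v / 4)))) * ∫ t : ℝ, Real.exp (-(1/4) * |t|) := by
  unfold Rm
  rw [← Real.norm_eq_abs, ← integral_const_mul]
  exact norm_integral_le_of_norm_le (exp4_int.const_mul _) (Filter.Eventually.of_forall (dom1 hm v))

theorem Rm_right : ∃ C : ℝ, 1 ≤ C ∧ ∀ m : ℝ, 8 ≤ m → ∀ v : ℝ, 0 ≤ v → |Rm m v| ≤ C * m * Real.exp (-(v / 4)) := by
  refine ⟨max 1 (Ar * Real.exp 4 * 2 * ∫ t : ℝ, Real.exp (-(1/4) * |t|)), le_max_left _ _, fun m hm v hv => ?_⟩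
  have hA := Ar_pos
  have hI : 0 ≤ ∫ t : ℝ, Real.exp (-(1/4) * |t|) := integral_nonneg fun t => (Real.exp_pos _).le
  refine (Rm_all hm v).trans ?_
  have e1 : Real.exp (-(v / 2)) ≤ Real.exp (-(v / 4)) := Real.exp_le_exp.2 (by linarith)
  have e2 : Real.exp (-(3 * v / 4)) ≤ Real.exp (-(v / 4)) := Real.exp_le_exp.2 (by linarith)
  have e3 := Real.exp_pos (-(v / 4))
  calc (Ar * m * Real.exp 4 * (Real.exp (-(v / 2)) + Real.exp (-(3 * v / 4)))) * ∫ t : ℝ, Real.exp (-(1/4) * |t|)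
      ≤ (Ar * m * Real.exp 4 * (Real.exp (-(v / 4)) + Real.exp (-(v / 4)))) * ∫ t : ℝ, Real.exp (-(1/4) * |t|) := by
        apply mul_le_mul_of_nonneg_right _ hI
        exact mul_le_mul_of_nonneg_left (add_le_add e1 e2) (by positivity)
    _ = (Ar * Real.exp 4 * 2 * ∫ t : ℝ, Real.exp (-(1/4) * |t|)) * (m * Real.exp (-(v / 4))) := by ring
    _ ≤ (max 1 (Ar * Real.exp 4 * 2 * ∫ t : ℝ, Real.exp (-(1/4) * |t|))) * (m * Real.exp (-(v / 4))) :=
        mul_le_mul_of_nonneg_right (le_max_right _ _) (by positivity)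
    _ = _ := by ring

theorem hRH_of (h : GB (ff lam) B) : ∀ s : ℂ, 1 / 2 < s.re → s ≠ 1 → riemannZeta s ≠ 0 :=
  fun _ hs hs1 => rz_right h hs hs1

theorem stmtUniq_of (h : GB (ff lam) B) : Pool.Agent.Helper95.IT.StmtUniq := by
  intro D A κ hD h1 h2 h3 h4 h5
  exact Pool.Agent.Helper51.IT.uniq_kr (hRH_of h) hD h1 h2 h3 h4 h5

/-- the spectral form on the line `Re w = c`, `0 < c < 1/4` -/
theorem Rm_rep0 (h : GB (ff lam) B) {m : ℕ} (hm : 8 ≤ m) {c : ℝ} (hc : 0 < c) (hc2 : c < 1/4) (v : ℝ) :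
    (Rm m v : ℂ) = (1 / (2 * Real.pi) : ℝ) * ∫ y : ℝ, Tq m (pt c y) * Complex.exp ((pt c y - 1/2) * v) := by
  have hm8 : (8:ℝ) ≤ m := by exact_mod_cast hm
  have hm0 : (0:ℝ) < m := by linarith
  have hRH := hRH_of h
  have hG : Integrable (Gq c) := GG_int hRH hc hc2
  have hrep : ∀ u : ℝ, (rho u : ℂ) = rt c u := rho_rep (stmtUniq_of h) hc hc2 (xi_pt_ne hRH hc hc2) hG
  set F : ℝ → ℝ → ℂ := fun t y => Gq c y * (Complex.exp ((pt c y - 1 / 2) * ((v - t : ℝ) : ℂ)) * (al m t : ℂ)) with hF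
  have hn : ∀ t y : ℝ, ‖F t y‖ ≤ ((m : ℝ) * Real.exp 4 * Real.exp ((c - 1/2) * v) * Real.exp (-(1/4) * |t|)) * ‖Gq c y‖ := by
    intro t y
    simp only [hF]
    rw [norm_mul, norm_mul, norm_ex, Complex.norm_real, Real.norm_eq_abs]
    have h2 := al_bd (by linarith : 4 ≤ (m : ℝ)) t
    have h3 : Real.exp ((c - 1/2) * (v - t)) * Real.exp (-|t|) ≤ Real.exp ((c - 1/2) * v) * Real.exp (-(1/4) * |t|) := by
      rw [← Real.exp_add, ← Real.exp_add]
      apply Real.exp_le_exp.2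
      have ht1 := le_abs_self t
      have ht0 := abs_nonneg t
      nlinarith
    have h4 := Real.exp_pos ((c - 1/2) * (v - t))
    calc ‖Gq c y‖ * (Real.exp ((c - 1/2) * (v - t)) * |al m t|)
        ≤ ‖Gq c y‖ * (Real.exp ((c - 1/2) * (v - t)) * (m * (Real.exp 4 * Real.exp (-|t|)))) := by
          apply mul_le_mul_of_nonneg_left _ (norm_nonneg _)
          exact mul_le_mul_of_nonneg_left h2 h4.le
      _ = ‖Gq c y‖ * ((m : ℝ) * Real.exp 4 * (Real.exp ((c - 1/2) * (v - t)) * Real.exp (-|t|))) := by ring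
      _ ≤ ‖Gq c y‖ * ((m : ℝ) * Real.exp 4 * (Real.exp ((c - 1/2) * v) * Real.exp (-(1/4) * |t|))) := by
          apply mul_le_mul_of_nonneg_left _ (norm_nonneg _)
          exact mul_le_mul_of_nonneg_left h3 (by positivity)
      _ = _ := by ring
  have hdom : Integrable (fun p : ℝ × ℝ => ((m : ℝ) * Real.exp 4 * Real.exp ((c - 1/2) * v) * Real.exp (-(1/4) * |p.1|)) *
      ‖Gq c p.2‖) ((volume : Measure ℝ).prod (volume : Measure ℝ)) :=
    Integrable.mul_prod (f := fun t : ℝ => (m : ℝ) * Real.exp 4 * Real.exp ((c - 1/2) * v) * Real.exp (-(1/4) * |t|))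
      (g := fun y : ℝ => ‖Gq c y‖) (exp4_int.const_mul _) hG.norm
  have hint : Integrable (Function.uncurry F) ((volume : Measure ℝ).prod (volume : Measure ℝ)) := by
    refine Integrable.mono' hdom ?_ ?_
    · simp only [hF, Function.uncurry_def]
      apply AEStronglyMeasurable.mul
      · exact hG.1.comp_snd
      · apply Continuous.aestronglyMeasurable
        have h1 := pt_cont c
        have h2 := al_cont (m : ℝ)
        have h3 : Continuous (fun p : ℝ × ℝ => ((al (m : ℝ) p.1 : ℝ) : ℂ)) := by fun_prop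
        have h4 : Continuous (fun p : ℝ × ℝ => Complex.exp ((pt c p.2 - 1 / 2) * ((v - p.1 : ℝ) : ℂ))) := by fun_prop
        exact h4.mul h3
    · filter_upwards with p
      exact hn p.1 p.2
  have hsw := integral_integral_swap hint
  have e1 : ∀ t : ℝ, ((rho (v - t) * al m t : ℝ) : ℂ) = ((1 / (2 * Real.pi) : ℝ) : ℂ) * ∫ y : ℝ, F t y := by
    intro t
    rw [Complex.ofReal_mul, hrep]
    unfold rt
    rw [mul_assoc, ← integral_mul_const]
    congr 1
    apply integral_congr_ae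
    filter_upwards with y
    simp only [hF]
    ring
  have e2 : ∀ y : ℝ, ∫ t : ℝ, F t y = Tq m (pt c y) * Complex.exp ((pt c y - 1/2) * v) := by
    intro y
    simp only [hF]
    rw [integral_const_mul]
    have hre : (pt c y - 1/2).re = c - 1/2 := by simp [pt]
    have h1 := al_tr (m := m) (by omega) (s := pt c y - 1/2) (by rw [hre]; linarith)
    rw [sub_add_cancel] at h1
    have h2 : ∫ t : ℝ, Complex.exp ((pt c y - 1 / 2) * ((v - t : ℝ) : ℂ)) * (al m t : ℂ) =
        Complex.exp ((pt c y - 1/2) * v) * ∫ t : ℝ, (al m t : ℂ) * Complex.exp (-((pt c y - 1/2) * t)) := by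
      rw [← integral_const_mul]
      apply integral_congr_ae
      filter_upwards with t
      rw [mul_left_comm, ← Complex.exp_add, mul_comm]
      congr 2
      push_cast
      ring
    rw [h2, h1]
    unfold Tq Gq
    have hp0 : pt c y ≠ 0 := by
      intro h0
      have := congrArg Complex.re h0
      rw [pt_re, Complex.zero_re] at this
      linarith
    generalize Complex.exp ((pt c y - 1/2) * v) = E
    generalize khat m (pt c y) = K
    rw [div_mul_eq_mul_div, div_eq_iff (mul_ne_zero hp0 ?_)]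
    · have hz : riemannZeta (pt c y) ≠ 0 := rz_left h (by rw [pt_re]; linarith) (by rw [pt_re]; exact hc)
      field_simp
    · exact rz_left h (by rw [pt_re]; linarith) (by rw [pt_re]; exact hc)
  unfold Rm
  rw [← integral_complex_ofReal]
  simp_rw [e1]
  rw [integral_const_mul, hsw]
  simp_rw [e2]

theorem Tq_diff (h : GB (ff lam) B) {m : ℕ} (hm : 8 ≤ m) {w : ℂ} (hc : 0 < w.re) (hc2 : w.re < 1/2) :
    DifferentiableAt ℂ (Tq m) w := by
  have hm8 : (8:ℝ) ≤ m := by exact_mod_cast hm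
  unfold Tq
  have h1 : DifferentiableAt ℂ (khat m) w := (khat_ana (by omega) (by linarith)).differentiableAt
  have hw1 : w ≠ 1 := by
    intro h0
    rw [h0] at hc2
    norm_num at hc2
  have h2w : 2 * w ≠ 1 := by
    intro h0
    have h3 := congrArg Complex.re h0
    simp at h3
    linarith
  have h2 : DifferentiableAt ℂ (fun w : ℂ => riemannZeta (2 * w)) w := by
    apply DifferentiableAt.comp (g := riemannZeta) (f := fun z : ℂ => 2 * z) w _ (by fun_prop)
    exact differentiableAt_riemannZeta h2w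
  exact h1.mul (h2.div (differentiableAt_riemannZeta hw1) (rz_left h hc2 hc))

theorem Tq_line_cont (h : GB (ff lam) B) {m : ℕ} (hm : 8 ≤ m) {c : ℝ} (hc : 0 < c) (hc2 : c < 1/2) :
    Continuous (fun y : ℝ => Tq m (pt c y)) := by
  rw [continuous_iff_continuousAt]
  intro y
  apply ContinuousAt.comp (g := Tq m) (f := fun y : ℝ => pt c y)
  · exact (Tq_diff h hm (by rw [pt_re]; exact hc) (by rw [pt_re]; exact hc2)).continuousAt
  · exact (pt_cont c).continuousAt

theorem inv_sq_int : Integrable (fun y : ℝ => 1 / (1 + |y|) ^ 2) := by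
  have h := integrable_one_add_norm (E := ℝ) (μ := volume) (r := 2) (by norm_num)
  refine h.congr ?_
  filter_upwards with y
  rw [Real.norm_eq_abs, Real.rpow_neg (by positivity), one_div]
  congr 1
  exact Real.rpow_natCast _ 2

theorem Tq_line_int (h : GB (ff lam) B) {m : ℕ} (hm : 8 ≤ m) {c : ℝ} (hc : 1/8 ≤ c) (hc2 : c < 1/2) :
    Integrable (fun y : ℝ => Tq m (pt c y)) := by
  obtain ⟨C, hC, hb⟩ := line_bd
  refine Integrable.mono' (inv_sq_int.const_mul (C * B * (m : ℝ) ^ 6 / (1/2 - c) ^ 4))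
    (Tq_line_cont h hm (by linarith) hc2).aestronglyMeasurable ?_
  filter_upwards with y
  refine (hb B h m hm c y hc hc2).trans (le_of_eq ?_)
  rw [mul_one_div, div_div]

theorem Tq_exp_int (h : GB (ff lam) B) {m : ℕ} (hm : 8 ≤ m) {c : ℝ} (hc : 1/8 ≤ c) (hc2 : c < 1/2) (v : ℝ) :
    Integrable (fun y : ℝ => Tq m (pt c y) * Complex.exp ((pt c y - 1/2) * v)) := by
  refine Integrable.mono' ((Tq_line_int h hm hc hc2).norm.mul_const (Real.exp ((c - 1/2) * v))) ?_ ?_
  · have h1 := pt_cont c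
    have h2 : Continuous (fun y : ℝ => Complex.exp ((pt c y - 1/2) * v)) := by fun_prop
    exact ((Tq_line_cont h hm (by linarith) hc2).mul h2).aestronglyMeasurable
  · filter_upwards with y
    rw [norm_mul, norm_ex]

/-- the spectral form on the line `Re w = c`, `1/8 ≤ c < 1/2` -/
theorem Rm_rep (h : GB (ff lam) B) {m : ℕ} (hm : 8 ≤ m) {c : ℝ} (hc : 1/8 ≤ c) (hc2 : c < 1/2) (v : ℝ) :
    (Rm m v : ℂ) = (1 / (2 * Real.pi) : ℝ) * ∫ y : ℝ, Tq m (pt c y) * Complex.exp ((pt c y - 1/2) * v) := by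
  rw [Rm_rep0 h hm (c := 1/8) (by norm_num) (by norm_num) v]
  congr 1
  obtain ⟨C, hC, hb⟩ := line_bd
  have hB := h.nonneg
  have hd : 0 < 1/2 - c := by linarith
  have hpt : ∀ c y : ℝ, (c : ℂ) + (y : ℂ) * Complex.I = pt c y := by
    intro c y
    unfold pt
    ring
  have hsh := Pool.Agent.Helper83.BDF.shift (fun s => Tq m s * Complex.exp ((s - 1/2) * v)) (a := 1/8) (b := c) hc
    (fun s hs1 hs2 => ?_) (fun T => (C * B * (m : ℝ) ^ 6 / (1/2 - c) ^ 4 * Real.exp |v|) * (1 / (1 + |T|) ^ 2)) ?_ ?_ ?_ ?_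
  · simp only [hpt] at hsh
    exact hsh
  · apply DifferentiableAt.mul
    · exact Tq_diff h hm (by linarith) (by linarith)
    · fun_prop
  · have h1 : Tendsto (fun T : ℝ => (1 + |T|) ^ 2) atTop atTop := by
      apply (tendsto_pow_atTop (by norm_num : (2:ℕ) ≠ 0)).comp
      exact tendsto_atTop_add_const_left _ _ (tendsto_abs_atTop_atTop)
    have h2 := (h1.inv_tendsto_atTop).const_mul (C * B * (m : ℝ) ^ 6 / (1/2 - c) ^ 4 * Real.exp |v|)
    rw [mul_zero] at h2
    refine h2.congr ?_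
    intro T
    simp [one_div]
  · filter_upwards with T
    intro s hs1 hs2 hsT
    have hs : s = pt s.re s.im := by
      rw [← hpt]
      exact (Complex.re_add_im s).symm
    have h1 := hb B h m hm s.re s.im hs1 (by linarith)
    rw [← hs] at h1
    rw [norm_mul]
    have h2 : ‖Complex.exp ((s - 1/2) * v)‖ ≤ Real.exp |v| := by
      rw [Complex.norm_exp]
      apply Real.exp_le_exp.2
      have e : ((s - 1/2) * (v : ℂ)).re = (s.re - 1/2) * v := by simp
      rw [e]
      have h3 : |(s.re - 1/2) * v| ≤ |v| := by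
        rw [abs_mul]
        have : |s.re - 1/2| ≤ 1 := by
          rw [abs_le]
          constructor <;> linarith
        nlinarith [abs_nonneg v]
      exact (le_abs_self _).trans h3
    have h3 : 1 + |T| = 1 + |s.im| := by rw [← hsT, abs_abs]
    rw [h3]
    have h4 : C * B * (m : ℝ) ^ 6 / ((1/2 - s.re) ^ 4 * (1 + |s.im|) ^ 2) ≤
        C * B * (m : ℝ) ^ 6 / (1/2 - c) ^ 4 * (1 / (1 + |s.im|) ^ 2) := by
      rw [mul_one_div, div_div]
      apply div_le_div_of_nonneg_left (by positivity) (by positivity)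
      apply mul_le_mul_of_nonneg_right _ (by positivity)
      apply pow_le_pow_left₀ hd.le
      linarith
    have h5 : 0 ≤ C * B * (m : ℝ) ^ 6 / (1/2 - c) ^ 4 * (1 / (1 + |s.im|) ^ 2) := by positivity
    calc ‖Tq m s‖ * ‖Complex.exp ((s - 1/2) * v)‖
        ≤ (C * B * (m : ℝ) ^ 6 / (1/2 - c) ^ 4 * (1 / (1 + |s.im|) ^ 2)) * Real.exp |v| :=
          mul_le_mul (h1.trans h4) h2 (norm_nonneg _) h5
      _ = _ := by ring
  · have := Tq_exp_int h hm (c := 1/8) le_rfl (by norm_num) v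
    simp only [hpt]
    exact this
  · simp only [hpt]
    exact Tq_exp_int h hm hc hc2 v

theorem Rm_line : ∃ C : ℝ, 1 ≤ C ∧ ∀ B : ℝ, GB (ff lam) B → ∀ m : ℕ, 8 ≤ m → ∀ c v : ℝ, 1/8 ≤ c → c < 1/2 →
    |Rm m v| ≤ C * B * (m : ℝ) ^ 6 / (1/2 - c) ^ 4 * Real.exp ((c - 1/2) * v) := by
  obtain ⟨C, hC, hb⟩ := line_bd
  refine ⟨max 1 (C * ∫ y : ℝ, 1 / (1 + |y|) ^ 2), le_max_left _ _, fun B h m hm c v hc hc2 => ?_⟩
  have hB := h.nonneg
  have hd : 0 < 1/2 - c := by linarith
  have h1 := Rm_rep h hm hc hc2 v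
  have h2 : |Rm m v| = ‖(Rm m v : ℂ)‖ := by rw [Complex.norm_real, Real.norm_eq_abs]
  rw [h2, h1, norm_mul, Complex.norm_real, Real.norm_of_nonneg (by positivity)]
  have h3 : ‖∫ y : ℝ, Tq m (pt c y) * Complex.exp ((pt c y - 1/2) * v)‖ ≤
      ∫ y : ℝ, (C * B * (m : ℝ) ^ 6 / (1/2 - c) ^ 4 * Real.exp ((c - 1/2) * v)) * (1 / (1 + |y|) ^ 2) := by
    apply norm_integral_le_of_norm_le (inv_sq_int.const_mul _)
    filter_upwards with y
    rw [norm_mul, norm_ex]
    calc ‖Tq m (pt c y)‖ * Real.exp ((c - 1/2) * v)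
        ≤ (C * B * (m : ℝ) ^ 6 / ((1/2 - c) ^ 4 * (1 + |y|) ^ 2)) * Real.exp ((c - 1/2) * v) :=
          mul_le_mul_of_nonneg_right (hb B h m hm c y hc hc2) (Real.exp_pos _).le
      _ = _ := by
          rw [← div_div]
          ring
  rw [integral_const_mul] at h3
  have hI : 0 ≤ ∫ y : ℝ, 1 / (1 + |y|) ^ 2 := integral_nonneg fun y => by positivity
  have h4 : 1 / (2 * Real.pi) ≤ 1 := by
    rw [div_le_one (by positivity)]
    linarith [Real.pi_gt_three]
  have hE := Real.exp_pos ((c - 1/2) * v)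
  calc 1 / (2 * Real.pi) * ‖∫ y : ℝ, Tq m (pt c y) * Complex.exp ((pt c y - 1/2) * v)‖
      ≤ 1 * ((C * B * (m : ℝ) ^ 6 / (1/2 - c) ^ 4 * Real.exp ((c - 1/2) * v)) * ∫ y : ℝ, 1 / (1 + |y|) ^ 2) :=
        mul_le_mul h4 h3 (norm_nonneg _) zero_le_one
    _ = (C * ∫ y : ℝ, 1 / (1 + |y|) ^ 2) * (B * (m : ℝ) ^ 6 / (1/2 - c) ^ 4 * Real.exp ((c - 1/2) * v)) := by ring
    _ ≤ (max 1 (C * ∫ y : ℝ, 1 / (1 + |y|) ^ 2)) * (B * (m : ℝ) ^ 6 / (1/2 - c) ^ 4 * Real.exp ((c - 1/2) * v)) :=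
        mul_le_mul_of_nonneg_right (le_max_right _ _) (by positivity)
    _ = _ := by ring

theorem Rm_left : ∃ C : ℝ, 1 ≤ C ∧ ∀ B : ℝ, GB (ff lam) B → ∀ m : ℕ, 8 ≤ m → ∀ v : ℝ, v ≤ 0 →
    |Rm m v| ≤ C * B * (m : ℝ) ^ 6 * pw v := by
  obtain ⟨C, hC, hl⟩ := Rm_line
  refine ⟨C * 256 * Real.exp 1, ?_, fun B h m hm v hv => ?_⟩
  · have := Real.add_one_le_exp (1:ℝ)
    nlinarith
  have hB := h.nonneg
  have hv0 := abs_nonneg v
  set d : ℝ := 1 / (4 * (1 + |v|)) with hd
  have hd0 : 0 < d := by rw [hd]; positivity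
  have hd1 : d ≤ 1/4 := by
    rw [hd]
    apply div_le_div_of_nonneg_left (by norm_num) (by norm_num)
    linarith
  have h1 := hl B h m hm (1/2 - d) v (by linarith) (by linarith)
  rw [show 1/2 - (1/2 - d) = d by ring, show (1/2 - d - 1/2) * v = d * |v| by rw [abs_of_nonpos hv]; ring] at h1
  refine h1.trans ?_
  have h2 : d * |v| ≤ 1 := by
    rw [hd, div_mul_eq_mul_div, div_le_one (by positivity)]
    linarith
  have h3 : Real.exp (d * |v|) ≤ Real.exp 1 := Real.exp_le_exp.2 h2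
  have h4 : 1 / d ^ 4 = 256 * (1 + |v|) ^ 4 := by
    rw [hd]
    field_simp
    norm_num
  have h5 : (1 + |v|) ^ 4 ≤ pw v := by
    unfold pw
    exact pow_le_pow_right₀ (by linarith) (by norm_num)
  have hpw := (Pool.Agent.Helper47.QL.pw_pos v).le
  calc C * B * (m : ℝ) ^ 6 / d ^ 4 * Real.exp (d * |v|)
      = C * B * (m : ℝ) ^ 6 * (1 / d ^ 4) * Real.exp (d * |v|) := by ring
    _ = C * B * (m : ℝ) ^ 6 * (256 * (1 + |v|) ^ 4) * Real.exp (d * |v|) := by rw [h4]
    _ ≤ C * B * (m : ℝ) ^ 6 * (256 * pw v) * Real.exp 1 := by gcongr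
    _ = _ := by ring

end Pool.Agent.Helper95.QL
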